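import Pool.Agent.CT.WDefs

set_option autoImplicit false

/-! # W5: the block theorem applies to the periodic harmonic drawing -/

namespace Pool.Agent.CT

open Set Metric

section w5

variable {K : DiscTiling} {M : PlaneMap K.V K.E K.F}

theorem w5_dir_add (w a b : ℂ) : dir w (a + b) = dir w a + dir w b := by
  simp only [dir, Complex.add_re, Complex.add_im]
  ring

theorem w5_dir_neg (w a : ℂ) : dir (-w) a = - dir w a := by
  simp only [dir, Complex.neg_re, Complex.neg_im]
  ring

theorem w5_wt_pos (u v : K.V) : 0 < wt M.toInc u v ↔ M.vadj.Adj u v := by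
  classical
  unfold wt
  by_cases h : M.vadj.Adj u v
  · simp [h]
  · simp [h]

theorem w5_net : Net (wt M.toInc) where
  fin v := by
    have h1 : (⋃ e ∈ {e | M.ve v e}, {u | M.ve u e}).Finite := by
      refine (M.vert_fin v).biUnion fun e _ => ?_
      obtain ⟨a, b, -, hab⟩ := M.edge_verts e
      have : {u | M.ve u e} = {a, b} := by
        ext u
        simp [hab]
      rw [this]
      exact (finite_singleton b).insert a
    refine h1.subset fun u hu => ?_
    have h2 : M.vadj.Adj v u := by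
      by_contra hcon
      apply hu
      classical
      unfold wt
      simp [hcon]
    obtain ⟨-, e, h3, h4⟩ := h2
    exact mem_biUnion h3 h4
  nonneg v u := by
    classical
    unfold wt
    split_ifs
    · exact zero_le_one
    · exact le_refl _

theorem w5_unb (hfin : WallFin K M.toPolyMap) {φ : K.V → ℂ} (hφ : WallPhi K M.toPolyMap φ)
    (w : ℂ) (hw : w ≠ 0) (c : ℝ) (v : K.V) : ∃ u, c < dir w (φ u) := by
  obtain ⟨h0, hκ⟩ := hfin.pos w hw
  have hpow : ∀ k : ℕ, dir w (φ (h0 ^ k • v)) = dir w (φ v) + k * dir w (tvec h0) := by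
    intro k
    induction k with
    | zero => simp
    | succ k ih =>
      rw [pow_succ', mul_smul, hφ.per, w5_dir_add, ih]
      push_cast
      ring
  obtain ⟨k, hk⟩ := exists_nat_gt ((c - dir w (φ v)) / dir w (tvec h0))
  have hk' : c - dir w (φ v) < k * dir w (tvec h0) := (div_lt_iff₀ hκ).1 hk
  refine ⟨h0 ^ k • v, ?_⟩
  rw [hpow]
  linarith

end w5

theorem wallBlk (h4 : Stmt_WallUp) (hA : Stmt_Harm) (hF : Stmt_FaceCycle) (h3 : Stmt_ThreeConn)
    (hB : Stmt_Block) : Stmt_WallBlk := by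
  intro K M hmap hfin φ hφ
  have hharm : ∀ w v, Harm (wt M.toInc) (fun u => dir w (φ u)) v := fun w v =>
    (hA K.V (wt M.toInc) w5_net).2.2.1 φ v w (hφ.harm v)
  let B : Blk K.V K.E K.F :=
    { toInc := M.toInc
      edge_verts := M.edge_verts
      cyc := hF K.V K.E K.F M.toPolyMap
      planar := M.planar }
  have hH : BlkHyp B univ φ := by
    refine ⟨?_, ?_, ?_, ?_, ?_⟩
    · intro w hw c
      exact h4 K M hmap hfin φ hφ w hw c
    · intro w hw v _ _
      by_cases h1 : ∃ u, M.vadj.Adj v u ∧ dir w (φ v) < dir w (φ u)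
      · left
        refine ⟨h1, ?_⟩
        obtain ⟨u, hu1, hu2⟩ := h1
        obtain ⟨u', h5, h6⟩ := (hA K.V (wt M.toInc) w5_net).2.1 _ v (hharm w v)
          ⟨u, (w5_wt_pos v u).2 hu1, hu2⟩
        exact ⟨u', (w5_wt_pos v u').1 h5, h6⟩
      · by_cases h2 : ∃ u, M.vadj.Adj v u ∧ dir w (φ u) < dir w (φ v)
        · left
          refine ⟨?_, h2⟩
          obtain ⟨u, hu1, hu2⟩ := h2
          obtain ⟨u', h5, h6⟩ := (hA K.V (wt M.toInc) w5_net).2.1 _ v (hharm (-w) v)
            ⟨u, (w5_wt_pos v u).2 hu1, by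
              show dir (-w) (φ v) < dir (-w) (φ u)
              rw [w5_dir_neg, w5_dir_neg]
              linarith⟩
          refine ⟨u', (w5_wt_pos v u').1 h5, ?_⟩
          have h7 : dir (-w) (φ u') < dir (-w) (φ v) := h6
          rw [w5_dir_neg, w5_dir_neg] at h7
          linarith
        · right
          refine ⟨mem_univ v, fun u hu => ?_⟩
          push Not at h1 h2
          exact le_antisymm (h1 u hu) (h2 u hu)
    · intro Q _ hQne _ hcard v
      have hS := h3 K.V K.E K.F M.toPolyMap M.vconn _ hcard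
      by_contra hcon
      push Not at hcon
      obtain ⟨hv1, hv2⟩ := hcon
      obtain ⟨k0, hk0⟩ := hQne
      have hk0S : k0 ∈ ({v | v ∉ Q ∧ ∃ k ∈ Q, B.vadj.Adj k v})ᶜ := fun h => h.1 hk0
      have hvS : v ∈ ({v | v ∉ Q ∧ ∃ k ∈ Q, B.vadj.Adj k v})ᶜ := by
        rintro ⟨-, k, hk, hkv⟩
        exact hv2 k hk hkv
      have hr := hS k0 hk0S v hvS
      refine hv1 (hr.closed hk0 fun x hx y hy hxy => ?_)
      by_contra hyQ
      exact hy ⟨hyQ, x, hx, hxy⟩
    · intro w hw c f p _ _ _
      exact w5_unb hfin hφ w hw c (p 0)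
    · intro w hw e f g u v _ _ _ _ _ _ _
      exact w5_unb hfin hφ w hw _ u
  exact hB K.V K.E K.F B univ φ hH

end Pool.Agent.CT
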