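import Pool.Agent.CT.WDefs

set_option autoImplicit false

/-! # W9: the faces crossed by a generic line -/

namespace Pool.Agent.CT

open Set Metric

section w9

theorem w9_dir_add (w a b : ℂ) : dir w (a + b) = dir w a + dir w b := by
  simp only [dir, Complex.add_re, Complex.add_im]
  ring

theorem w9_dir_smul (w a : ℂ) (t : ℝ) : dir w (t • a) = t * dir w a := by
  simp only [dir, Complex.smul_re, Complex.smul_im, smul_eq_mul]
  ring

/-- The functional as a linear map. -/
noncomputable def w9_dirL (w : ℂ) : ℂ →ₗ[ℝ] ℝ where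
  toFun := dir w
  map_add' := w9_dir_add w
  map_smul' := fun t a => w9_dir_smul w a t

theorem w9_hull_lt (w : ℂ) (c : ℝ) (S : Set ℂ) (h : ∀ z ∈ S, dir w z < c) :
    ∀ z ∈ convexHull ℝ S, dir w z < c := by
  have h1 : Convex ℝ {z : ℂ | dir w z < c} := convex_halfSpace_lt (w9_dirL w).isLinear c
  intro z hz
  exact convexHull_min (s := S) (fun y hy => h y hy) h1 hz

theorem w9_hull_gt (w : ℂ) (c : ℝ) (S : Set ℂ) (h : ∀ z ∈ S, c < dir w z) :
    ∀ z ∈ convexHull ℝ S, c < dir w z := by
  have h1 : Convex ℝ {z : ℂ | c < dir w z} := convex_halfSpace_gt (w9_dirL w).isLinear c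
  intro z hz
  exact convexHull_min (s := S) (fun y hy => h y hy) h1 hz

theorem w9_param (w z z' t : ℂ) (c : ℝ) (hw : w ≠ 0) (hne : z ≠ z') (h1 : dir w z = c)
    (h2 : dir w z' = c) (h3 : dir w t = c) : ∃ s : ℝ, t = z + s • (z' - z) := by
  have ha : z' - z ≠ 0 := sub_ne_zero.2 hne.symm
  have hN : 0 < (z' - z).re ^ 2 + (z' - z).im ^ 2 := by
    by_contra hcon
    push Not at hcon
    have e1 : (z' - z).re = 0 := by nlinarith [sq_nonneg (z' - z).re, sq_nonneg (z' - z).im]
    have e2 : (z' - z).im = 0 := by nlinarith [sq_nonneg (z' - z).re, sq_nonneg (z' - z).im]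
    exact ha (Complex.ext e1 e2)
  have f1 : w.re * (z' - z).re + w.im * (z' - z).im = 0 := by
    simp only [dir] at h1 h2
    simp only [Complex.sub_re, Complex.sub_im]
    linarith
  have f2 : w.re * (t - z).re + w.im * (t - z).im = 0 := by
    simp only [dir] at h1 h3
    simp only [Complex.sub_re, Complex.sub_im]
    linarith
  have f3 : (z' - z).re * (t - z).im - (z' - z).im * (t - z).re = 0 := by
    have g1 : w.re * ((z' - z).re * (t - z).im - (z' - z).im * (t - z).re) = 0 := by
      linear_combination (t - z).im * f1 - (z' - z).im * f2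
    have g2 : w.im * ((z' - z).re * (t - z).im - (z' - z).im * (t - z).re) = 0 := by
      linear_combination (z' - z).re * f2 - (t - z).re * f1
    rcases mul_eq_zero.1 g1 with h | h
    · rcases mul_eq_zero.1 g2 with h' | h'
      · exact absurd (Complex.ext h h') hw
      · exact h'
    · exact h
  refine ⟨((z' - z).re * (t - z).re + (z' - z).im * (t - z).im) /
    ((z' - z).re ^ 2 + (z' - z).im ^ 2), ?_⟩
  have k1 : (t - z).re = ((z' - z).re * (t - z).re + (z' - z).im * (t - z).im) /
    ((z' - z).re ^ 2 + (z' - z).im ^ 2) * (z' - z).re := by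
    rw [div_mul_eq_mul_div, eq_div_iff hN.ne']
    linear_combination -(z' - z).im * f3
  have k2 : (t - z).im = ((z' - z).re * (t - z).re + (z' - z).im * (t - z).im) /
    ((z' - z).re ^ 2 + (z' - z).im ^ 2) * (z' - z).im := by
    rw [div_mul_eq_mul_div, eq_div_iff hN.ne']
    linear_combination (z' - z).re * f3
  have k3 : t - z = (((z' - z).re * (t - z).re + (z' - z).im * (t - z).im) /
    ((z' - z).re ^ 2 + (z' - z).im ^ 2)) • (z' - z) := by
    apply Complex.ext
    · rw [Complex.smul_re, smul_eq_mul, ← k1]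
    · rw [Complex.smul_im, smul_eq_mul, ← k2]
  rw [← k3]
  ring

theorem w9_one_side (P : Set ℂ) (hconv : Convex ℝ P) (hcl : IsClosed P) (w z z' : ℂ) (c : ℝ)
    (hne : z ≠ z') (h1 : dir w z = c) (h2 : dir w z' = c)
    (hz : z ∈ frontier P) (hz' : z' ∈ P)
    (hfr : ∀ p ∈ frontier P, dir w p = c → p = z ∨ p = z') (s : ℝ) (hs : s < 0)
    (hmem : z + s • (z' - z) ∈ P) : False := by
  have hd : z' - z ≠ 0 := sub_ne_zero.2 hne.symm
  have hzP : z ∈ P := hcl.frontier_subset hz
  have hmP : z + (s / 2) • (z' - z) ∈ P := by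
    have := hconv hzP hmem (by norm_num : (0 : ℝ) ≤ 1 / 2) (by norm_num : (0 : ℝ) ≤ 1 / 2)
      (by norm_num)
    convert this using 1
    module
  have hdir : dir w (z + (s / 2) • (z' - z)) = c := by
    have h3 : dir w (z' - z) = 0 := by
      simp only [dir] at h1 h2
      simp only [dir, Complex.sub_re, Complex.sub_im]
      linarith
    rw [w9_dir_add, w9_dir_smul, h3, h1]
    ring
  have hni : z + (s / 2) • (z' - z) ∉ interior P := by
    intro hi
    have hz2 : z ∈ openSegment ℝ (z + (s / 2) • (z' - z)) z' := by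
      have hpos : (0 : ℝ) < 1 - s / 2 := by linarith
      have ha : (1 - s / 2)⁻¹ * (1 - s / 2) = 1 := inv_mul_cancel₀ hpos.ne'
      have ha1 : (1 - s / 2)⁻¹ < 1 := inv_lt_one_of_one_lt₀ (by linarith)
      refine ⟨(1 - s / 2)⁻¹, 1 - (1 - s / 2)⁻¹, inv_pos.2 hpos, by linarith, by ring, ?_⟩
      have h5 : (1 - s / 2)⁻¹ • (z + (s / 2) • (z' - z)) + (1 - (1 - s / 2)⁻¹) • z' =
          ((1 - s / 2)⁻¹ * (1 - s / 2)) • z + (1 - (1 - s / 2)⁻¹ * (1 - s / 2)) • z' := by
        module
      rw [h5, ha]
      simp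
    exact hz.2 (hconv.openSegment_interior_self_subset_interior hi hz' hz2)
  have hf : z + (s / 2) • (z' - z) ∈ frontier P := ⟨subset_closure hmP, hni⟩
  rcases hfr _ hf hdir with h | h
  · have h4 : (s / 2) • (z' - z) = 0 := by
      have := congrArg (fun y => y - z) h
      simpa using this
    rcases smul_eq_zero.1 h4 with h5 | h5
    · linarith
    · exact hd h5
  · have h4 : (s / 2 - 1) • (z' - z) = 0 := by
      have h5 : z + (s / 2) • (z' - z) - z' = (s / 2 - 1) • (z' - z) := by
        module
      rw [← h5, h, sub_self]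
    rcases smul_eq_zero.1 h4 with h5 | h5
    · linarith
    · exact hd h5

variable {V E F : Type}

theorem w9_seg (M : PolyMap V E F) (φ : V → ℂ) (e : E) (u v : V) (huv : u ≠ v) (hu : M.ve u e)
    (hv : M.ve v e) : seg M.toInc φ e = segment ℝ (φ u) (φ v) := by
  obtain ⟨a, b, hab, h⟩ := M.edge_verts e
  have h1 : {x | M.ve x e} = {u, v} := by
    ext x
    simp only [mem_ofPred_eq, mem_insert_iff, mem_singleton_iff, h]
    rcases (h u).1 hu with rfl | rfl
    · rcases (h v).1 hv with rfl | rfl
      · exact absurd rfl huv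
      · exact Iff.rfl
    · rcases (h v).1 hv with rfl | rfl
      · exact or_comm
      · exact absurd rfl huv
  unfold seg
  rw [h1, image_pair, convexHull_pair]

end w9

theorem crossT (hO : Stmt_OppOf) (hF : Stmt_FaceCycle) : Stmt_Cross := by
  intro V E F M φ hB w c hw hc
  obtain ⟨hFO, -⟩ := hO V E F M φ hB
  set A : Set V := {v | c < dir w (φ v)} with hA
  have hnA : ∀ v, v ∉ A → dir w (φ v) < c := by
    intro v hv
    exact lt_of_le_of_ne (not_lt.1 hv) (hc v)
  have hcross : ∀ d p, p ∈ seg M.toInc φ d → dir w p = c → d ∈ fr M.toInc.dual A := by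
    intro d p hp hpc
    refine ⟨?_, ?_⟩
    · by_contra hcon
      push Not at hcon
      have := w9_hull_lt w c (φ '' {v | M.ve v d}) (by
        rintro _ ⟨v, hv, rfl⟩
        exact hnA v fun hvA => hcon v hvA hv) p hp
      linarith
    · by_contra hcon
      push Not at hcon
      have := w9_hull_gt w c (φ '' {v | M.ve v d}) (by
        rintro _ ⟨v, hv, rfl⟩
        by_contra h
        exact hcon v h hv) p hp
      linarith
  have h2 : ∀ e ∈ fr M.toInc.dual A, ∃ z, z ∈ seg M.toInc φ e ∧ dir w z = c ∧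
      ∀ z' ∈ seg M.toInc φ e, dir w z' = c → z' = z := by
    rintro e ⟨⟨u, hu, hue⟩, ⟨v, hv, hve⟩⟩
    have hu' : c < dir w (φ u) := hu
    have hv' : dir w (φ v) < c := hnA v hv
    have huv : v ≠ u := by
      rintro rfl
      exact hv hu
    have hs : seg M.toInc φ e = segment ℝ (φ v) (φ u) := w9_seg M φ e v u huv hve hue
    have hpos : 0 < dir w (φ u) - dir w (φ v) := by linarith
    rw [hs, segment_eq_image']
    have hd : ∀ θ : ℝ, dir w (φ v + θ • (φ u - φ v)) =
        dir w (φ v) + θ * (dir w (φ u) - dir w (φ v)) := by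
      intro θ
      simp only [dir, Complex.add_re, Complex.add_im, Complex.smul_re, Complex.smul_im,
        Complex.sub_re, Complex.sub_im, smul_eq_mul]
      ring
    refine ⟨φ v + ((c - dir w (φ v)) / (dir w (φ u) - dir w (φ v))) • (φ u - φ v),
      ⟨_, ⟨?_, ?_⟩, rfl⟩, ?_, ?_⟩
    · apply div_nonneg
      · linarith
      · exact hpos.le
    · rw [div_le_one hpos]
      linarith
    · rw [hd, div_mul_cancel₀ _ hpos.ne']
      ring
    · rintro _ ⟨θ, -, rfl⟩ hθ
      have hθ' : dir w (φ v + θ • (φ u - φ v)) = c := hθ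
      rw [hd] at hθ'
      have : θ = (c - dir w (φ v)) / (dir w (φ u) - dir w (φ v)) := by
        rw [eq_div_iff hpos.ne']
        linarith
      rw [this]
  refine ⟨?_, h2, ?_⟩
  · intro f hf
    obtain ⟨n, x, y, hxy⟩ := hF V E F M f
    have hve : ∀ i v, M.ve v (y i) ↔ (v = x i ∨ v = x (i + 1)) := hxy.curve.ve
    have hef : ∀ i, M.ef (y i) f := fun i => (hxy.curve.mem (y i)).2 ⟨i, rfl⟩
    have hvf : ∀ v, M.vf v f → ∃ i, v = x i := by
      rintro v ⟨e, he, hef'⟩
      obtain ⟨i, rfl⟩ := (hxy.curve.mem e).1 hef'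
      rcases (hve i v).1 he with h | h
      · exact ⟨_, h⟩
      · exact ⟨_, h⟩
    have hstep : ∀ i, x i ∈ A ↔ x (i + 1) ∈ A := by
      intro i
      have hy := hf (y i) (hef i)
      by_contra hcon
      apply hy
      by_cases h : x i ∈ A
      · have h' : x (i + 1) ∉ A := fun h' => hcon ⟨fun _ => h', fun _ => h⟩
        exact ⟨⟨x i, h, (hve i _).2 (Or.inl rfl)⟩, ⟨x (i + 1), h', (hve i _).2 (Or.inr rfl)⟩⟩
      · have h' : x (i + 1) ∈ A := by
          by_contra h'
          exact hcon ⟨fun h1 => absurd h1 h, fun h1 => absurd h1 h'⟩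
        exact ⟨⟨x (i + 1), h', (hve i _).2 (Or.inr rfl)⟩, ⟨x i, h, (hve i _).2 (Or.inl rfl)⟩⟩
    have hall : ∀ i, x i ∈ A ↔ x 0 ∈ A := by
      intro i
      induction i using Int.induction_on with
      | zero => exact Iff.rfl
      | succ j ih => rw [← hstep]; exact ih
      | pred j ih =>
        rw [← ih]
        have := hstep (-(j : ℤ) - 1)
        rw [sub_add_cancel] at this
        exact this
    rw [eq_empty_iff_forall_notMem]
    rintro p ⟨hp, hpc⟩
    have hpc' : dir w p = c := hpc
    by_cases h0 : x 0 ∈ A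
    · have := w9_hull_gt w c (φ '' {v | M.vf v f}) (by
        rintro _ ⟨v, hv, rfl⟩
        obtain ⟨i, rfl⟩ := hvf v hv
        exact (hall i).2 h0) p hp
      linarith
    · have := w9_hull_lt w c (φ '' {v | M.vf v f}) (by
        rintro _ ⟨v, hv, rfl⟩
        obtain ⟨i, rfl⟩ := hvf v hv
        exact hnA _ fun h => h0 ((hall i).1 h)) p hp
      linarith
  · intro f e e' hee hd z z' hz hzc hz' hzc'
    have hOK := hFO f
    have hee1 := (hd e).2 (Or.inl rfl)
    have hee2 := (hd e').2 (Or.inr rfl)
    have hne : z ≠ z' := by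
      intro h
      rw [← h] at hz'
      obtain ⟨v, -, hv⟩ := hOK.seg_inter e e' hee1.1 hee2.1 hee ⟨hz, hz'⟩
      exact hc v (by rw [hv]; exact hzc)
    have hfrz : ∀ d, M.ef d f → seg M.toInc φ d ⊆ frontier (poly M.toInc φ f) := by
      intro d hdf
      rw [hOK.bdry]
      exact subset_biUnion_of_mem (u := fun d => seg M.toInc φ d) hdf
    have hfr : ∀ p ∈ frontier (poly M.toInc φ f), dir w p = c → p = z ∨ p = z' := by
      intro p hp hpc
      rw [hOK.bdry] at hp
      simp only [mem_iUnion] at hp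
      obtain ⟨d, hdf, hpd⟩ := hp
      have hdf' : M.ef d f := hdf
      obtain ⟨z₁, -, -, hu⟩ := h2 d (hcross d p hpd hpc)
      rcases (hd d).1 ⟨hdf', hcross d p hpd hpc⟩ with rfl | rfl
      · left
        rw [hu p hpd hpc, hu z hz hzc]
      · right
        rw [hu p hpd hpc, hu z' hz' hzc']
    have hcomp : IsCompact (poly M.toInc φ f) := (hOK.fin.image φ).isCompact_convexHull ℝ
    have hcl : IsClosed (poly M.toInc φ f) := hcomp.isClosed
    have hconv : Convex ℝ (poly M.toInc φ f) := convex_convexHull ℝ _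
    have hzf : z ∈ frontier (poly M.toInc φ f) := hfrz e hee1.1 hz
    have hzf' : z' ∈ frontier (poly M.toInc φ f) := hfrz e' hee2.1 hz'
    have hzP := hcl.frontier_subset hzf
    have hzP' := hcl.frontier_subset hzf'
    have hline : ∀ t ∈ segment ℝ z z', dir w t = c := by
      rintro _ ⟨a, b, -, -, hab, rfl⟩
      rw [w9_dir_add, w9_dir_smul, w9_dir_smul, hzc, hzc', ← add_mul, hab, one_mul]
    refine ⟨hne, ?_, ?_⟩
    · apply Subset.antisymm
      · rintro t ⟨htP, htc⟩
        have htc' : dir w t = c := htc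
        obtain ⟨s, hs⟩ := w9_param w z z' t c hw hne hzc hzc' htc'
        rcases lt_or_ge s 0 with h | h
        · exact (w9_one_side _ hconv hcl w z z' c hne hzc hzc' hzf hzP' hfr s h
            (by rw [← hs]; exact htP)).elim
        · rcases le_or_gt s 1 with h' | h'
          · rw [segment_eq_image']
            exact ⟨s, ⟨h, h'⟩, hs.symm⟩
          · refine (w9_one_side _ hconv hcl w z' z c hne.symm hzc' hzc hzf' hzP
              (fun p hp hpc => (hfr p hp hpc).symm) (1 - s) (by linarith) ?_).elim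
            have : z' + (1 - s) • (z - z') = t := by
              rw [hs]
              module
            rw [this]
            exact htP
      · intro t ht
        exact ⟨hconv.segment_subset hzP hzP' ht, hline t ht⟩
    · intro t ht
      have htS := openSegment_subset_segment ℝ z z' ht
      have htP := hconv.segment_subset hzP hzP' htS
      by_contra hcon
      rcases hfr t ⟨subset_closure htP, hcon⟩ (hline t htS) with h | h
      · rw [h] at ht
        exact hne (left_mem_openSegment_iff.1 ht)
      · rw [h] at ht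
        exact hne (right_mem_openSegment_iff.1 ht)

end Pool.Agent.CT
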