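import Pool.Agent.CT.WDefs
import Pool.Agent.CT.Conn

set_option autoImplicit false

/-! # Block W8: the dual plane map and the dual bond lemma -/

namespace Pool.Agent.CT

open Set Metric

section

variable {V E F : Type}

/-- The dual cell. -/
def w8_swap : Cell F E V → Cell V E F
  | .vert f => .face f
  | .edge e => .edge e
  | .face v => .vert v

theorem w8_swap_inj : Function.Injective (w8_swap (V := V) (E := E) (F := F)) := by
  intro a b h
  cases a <;> cases b <;> simp_all [w8_swap]

theorem w8_vf (M : Inc V E F) (f : F) (v : V) : M.dual.vf f v ↔ M.vf v f := by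
  constructor
  · rintro ⟨e, h1, h2⟩
    exact ⟨e, h2, h1⟩
  · rintro ⟨e, h1, h2⟩
    exact ⟨e, h2, h1⟩

theorem w8_inc (M : Inc V E F) {a b : Cell F E V} (h : CellInc M.dual a b) :
    CellInc M (w8_swap b) (w8_swap a) := by
  cases h with
  | ve h => exact CellInc.ef h
  | ef h => exact CellInc.ve h
  | vf h => exact CellInc.vf ((w8_vf M _ _).1 h)

theorem w8_adj (M : Inc V E F) {a b : Cell F E V} (h : M.dual.cellGraph.Adj a b) :
    M.cellGraph.Adj (w8_swap a) (w8_swap b) := by
  rcases h with h | h
  · exact Or.inr (w8_inc M h)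
  · exact Or.inl (w8_inc M h)

/-- The cell graph of the dual is strongly planar. -/
theorem w8_planar (M : Inc V E F) (h : StrongPlanar M.cellGraph) :
    StrongPlanar M.dual.cellGraph := by
  refine h.minor (fun b => {w8_swap b}) (fun b => singleton_nonempty _)
    (fun b => ConnIn.singleton _) ?_ ?_
  · intro b b' hne
    rw [Set.disjoint_singleton]
    exact fun h => hne (w8_swap_inj h)
  · intro b b' hadj
    exact ⟨_, rfl, _, rfl, w8_adj M hadj⟩

/-- The dual plane map. -/
def PlaneMap.dualPlane (M : PlaneMap V E F) : PlaneMap F E V where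
  toPolyMap := M.toPolyMap.dualMap
  vconn := M.fconn
  fconn := M.vconn
  planar := w8_planar M.toInc M.planar
  vend := M.fend
  fend := M.vend
  vinf := M.finf
  finf := M.vinf

end

theorem dualBond (hB : Stmt_Bond) : Stmt_DualBond := by
  intro V E F M A h1 h2 h3 h4
  exact hB F E V M.dualPlane A h1 h2 h3 h4

end Pool.Agent.CT
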