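import Pool.Agent.CT.WDefs

set_option autoImplicit false

/-! # Block W2: finiteness modulo translations -/

namespace Pool.Agent.CT

open Set Metric

variable {K : DiscTiling}

theorem w2_tvec_one : tvec (1 : transGrp K) = 0 := rfl

theorem w2_tvec_inv (h : transGrp K) : tvec h⁻¹ = -tvec h := by
  have h1 := tvec_mul h h⁻¹
  rw [mul_inv_cancel, w2_tvec_one] at h1
  linear_combination -h1

theorem w2_tvec_pow (h : transGrp K) (n : ℕ) : tvec (h ^ n) = n * tvec h := by
  induction n with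
  | zero => simp [w2_tvec_one]
  | succ n ih =>
    rw [pow_succ', tvec_mul, ih]
    push_cast
    ring

theorem w2_tvec_zpow (h : transGrp K) (n : ℤ) : tvec (h ^ n) = n * tvec h := by
  cases n with
  | ofNat n =>
    rw [Int.ofNat_eq_natCast, zpow_natCast, w2_tvec_pow]
    simp
  | negSucc n =>
    rw [zpow_negSucc, w2_tvec_inv, w2_tvec_pow]
    push_cast
    ring

theorem w2_tvec_eq_zero (h : transGrp K) (h0 : tvec h = 0) : h = 1 := by
  apply Subtype.ext
  apply Subtype.ext
  apply IsometryEquiv.ext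
  intro z
  show h.1.1 z = z
  rw [trans_apply, h0, add_zero]

theorem w2_det {a b : ℂ} (hab : LinearIndependent ℝ ![a, b]) : a.re * b.im - a.im * b.re ≠ 0 := by
  intro hdet
  rw [LinearIndependent.pair_iff] at hab
  have h1 := hab b.im (-a.im) (by
    apply Complex.ext
    · simp only [Complex.add_re, Complex.real_smul, Complex.mul_re, Complex.ofReal_re,
        Complex.ofReal_im, Complex.zero_re]
      linarith
    · simp only [Complex.add_im, Complex.real_smul, Complex.mul_im, Complex.ofReal_re,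
        Complex.ofReal_im, Complex.zero_im]
      ring)
  have h2 := hab b.re (-a.re) (by
    apply Complex.ext
    · simp only [Complex.add_re, Complex.real_smul, Complex.mul_re, Complex.ofReal_re,
        Complex.ofReal_im, Complex.zero_re]
      ring
    · simp only [Complex.add_im, Complex.real_smul, Complex.mul_im, Complex.ofReal_re,
        Complex.ofReal_im, Complex.zero_im]
      linarith)
  have ha : a = 0 := Complex.ext (by simpa using h2.2) (by simpa using h1.2)
  have h3 := hab 1 0 (by simp [ha])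
  exact one_ne_zero h3.1

theorem w2_coord {a b : ℂ} (hab : LinearIndependent ℝ ![a, b]) (z : ℂ) :
    ∃ s t : ℝ, z = s * a + t * b := by
  have hdet := w2_det hab
  refine ⟨(z.re * b.im - z.im * b.re) / (a.re * b.im - a.im * b.re),
    (a.re * z.im - a.im * z.re) / (a.re * b.im - a.im * b.re), ?_⟩
  apply Complex.ext
  · simp only [Complex.add_re, Complex.mul_re, Complex.ofReal_re, Complex.ofReal_im, zero_mul,
      sub_zero]
    rw [div_mul_eq_mul_div, div_mul_eq_mul_div, ← add_div, eq_div_iff hdet]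
    ring
  · simp only [Complex.add_im, Complex.mul_im, Complex.ofReal_re, Complex.ofReal_im, zero_mul,
      add_zero]
    rw [div_mul_eq_mul_div, div_mul_eq_mul_div, ← add_div, eq_div_iff hdet]
    ring

/-- Every point can be moved into a bounded region by a translation. -/
theorem w2_move (hW : WallNF K) : ∃ R : ℝ, ∀ z : ℂ, ∃ h : transGrp K, ‖z - tvec h‖ ≤ R := by
  obtain ⟨a, b, ha', hb', hab⟩ := hW
  obtain ⟨ha, rfl⟩ := exists_trans ha'
  obtain ⟨hb, rfl⟩ := exists_trans hb'
  refine ⟨‖tvec ha‖ + ‖tvec hb‖, fun z => ?_⟩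
  obtain ⟨s, t, rfl⟩ := w2_coord hab z
  refine ⟨ha ^ ⌊s⌋ * hb ^ ⌊t⌋, ?_⟩
  rw [tvec_mul, w2_tvec_zpow, w2_tvec_zpow]
  have h1 : (s : ℂ) * tvec ha + t * tvec hb - (⌊s⌋ * tvec ha + ⌊t⌋ * tvec hb) =
      ((Int.fract s : ℝ) : ℂ) * tvec ha + ((Int.fract t : ℝ) : ℂ) * tvec hb := by
    rw [← Int.self_sub_floor, ← Int.self_sub_floor]
    push_cast
    ring
  rw [h1]
  have h2 : ∀ (x : ℝ) (u : ℂ), ‖((Int.fract x : ℝ) : ℂ) * u‖ ≤ ‖u‖ := by
    intro x u
    rw [norm_mul, Complex.norm_real, Real.norm_of_nonneg (Int.fract_nonneg x)]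
    have := (Int.fract_lt_one x).le
    nlinarith [norm_nonneg u]
  exact (norm_add_le _ _).trans (add_le_add (h2 _ _) (h2 _ _))

theorem w2_dir_neg (w z : ℂ) : dir w (-z) = -dir w z := by
  simp only [dir, Complex.neg_re, Complex.neg_im]
  ring

theorem wallFin : Stmt_WallFin := by
  intro K M hM hT hW
  have hlocF : ∀ r : ℝ, {f : K.F | ∃ z ∈ f.1, ‖z‖ ≤ r}.Finite := by
    intro r
    have h1 := (hT.locfin r).preimage (f := (Subtype.val : K.F → Set ℂ))
      (Subtype.val_injective.injOn)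
    refine h1.subset ?_
    rintro f ⟨z, hz, hzr⟩
    exact ⟨f.2, z, hz, by rwa [mem_closedBall, dist_zero_right]⟩
  have hvfin : ∀ f : K.F, {v : K.V | M.vf v f}.Finite := by
    intro f
    have h1 : {v : K.V | M.vf v f} ⊆ ⋃ e ∈ {e | M.ef e f}, {v : K.V | M.ve v e} := by
      rintro v ⟨e, hve, hef⟩
      exact mem_biUnion (show e ∈ {e | M.ef e f} from hef) hve
    refine Set.Finite.subset ((M.face_fin f).biUnion fun e _ => ?_) h1
    obtain ⟨u, v, _, h⟩ := M.edge_verts e
    refine ((finite_singleton v).insert u).subset ?_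
    intro w hw
    exact (h w).1 hw
  have hlocV : ∀ r : ℝ, {v : K.V | ‖v.1‖ ≤ r}.Finite := by
    intro r
    refine Set.Finite.subset ((hlocF r).biUnion fun f _ => hvfin f) ?_
    intro v hv
    have h3 := M.vert_card v
    have hne : {e | M.ve v e}.Nonempty := by
      rw [nonempty_iff_ne_empty]
      intro h
      rw [h, ncard_empty] at h3
      omega
    obtain ⟨e, he⟩ := hne
    obtain ⟨f, g, _, hfg⟩ := M.edge_faces e
    have hef : M.ef e f := (hfg f).2 (Or.inl rfl)
    have hmem : v.1 ∈ f.1 := (hM.ef e f).1 hef ((hM.ve v e).1 he)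
    exact mem_biUnion (show f ∈ {f : K.F | ∃ z ∈ f.1, ‖z‖ ≤ r} from ⟨v.1, hmem, hv⟩)
      (show v ∈ {v : K.V | M.vf v f} from ⟨e, he, hef⟩)
  obtain ⟨R, hR⟩ := w2_move hW
  refine ⟨⟨?_, ?_⟩, ?_, ?_, ?_, hlocV, hlocF, ?_⟩
  · intro g v e h
    exact (hM.ve _ _).2 (mem_image_of_mem _ ((hM.ve _ _).1 h))
  · intro g e f h
    exact (hM.ef _ _).2 (image_mono ((hM.ef _ _).1 h))
  · refine ⟨{v | ‖v.1‖ ≤ R}, hlocV R, fun v => ?_⟩
    obtain ⟨h, hh⟩ := hR v.1
    refine ⟨h, h⁻¹ • v, ?_, by rw [smul_inv_smul]⟩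
    show ‖(h⁻¹ • v).1‖ ≤ R
    rw [smul_V_trans, w2_tvec_inv, ← sub_eq_add_neg]
    exact hh
  · refine ⟨{f | ∃ z ∈ f.1, ‖z‖ ≤ R}, hlocF R, fun f => ?_⟩
    obtain ⟨ψ⟩ := K.n1 f.1 f.2
    have hz : ((ψ.symm ⟨0, by simp⟩ : f.1) : ℂ) ∈ f.1 := Subtype.coe_prop _
    set z : ℂ := ((ψ.symm ⟨0, by simp⟩ : f.1) : ℂ) with hzdef
    obtain ⟨h, hh⟩ := hR z
    refine ⟨h, h⁻¹ • f, ?_, by rw [smul_inv_smul]⟩
    refine ⟨z - tvec h, ?_, hh⟩
    rw [smul_F_trans, w2_tvec_inv]
    exact ⟨z, hz, by ring⟩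
  · intro h v hv
    apply w2_tvec_eq_zero
    have h1 := congrArg Subtype.val hv
    rw [smul_V_trans] at h1
    linear_combination h1
  · intro w hw
    obtain ⟨a, b, ha', hb', hab⟩ := hW
    obtain ⟨ha, rfl⟩ := exists_trans ha'
    obtain ⟨hb, rfl⟩ := exists_trans hb'
    have key : ∀ h : transGrp K, dir w (tvec h) ≠ 0 → ∃ h : transGrp K, 0 < dir w (tvec h) := by
      intro h hh
      rcases lt_or_gt_of_ne hh with h1 | h1
      · refine ⟨h⁻¹, ?_⟩
        rw [w2_tvec_inv, w2_dir_neg]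
        linarith
      · exact ⟨h, h1⟩
    by_contra hcon
    have h1 : dir w (tvec ha) = 0 := by
      by_contra h
      exact hcon (key ha h)
    have h2 : dir w (tvec hb) = 0 := by
      by_contra h
      exact hcon (key hb h)
    have hdet := w2_det hab
    simp only [dir] at h1 h2
    apply hw
    apply Complex.ext
    · have h3 : w.re * ((tvec ha).re * (tvec hb).im - (tvec ha).im * (tvec hb).re) = 0 := by
        linear_combination (tvec hb).im * h1 - (tvec ha).im * h2
      rcases mul_eq_zero.1 h3 with h | h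
      · simpa using h
      · exact absurd h hdet
    · have h3 : w.im * ((tvec ha).re * (tvec hb).im - (tvec ha).im * (tvec hb).re) = 0 := by
        linear_combination (tvec ha).re * h2 - (tvec hb).re * h1
      rcases mul_eq_zero.1 h3 with h | h
      · simpa using h
      · exact absurd h hdet

end Pool.Agent.CT
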