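import Pool.Agent.CT.WDefs

set_option autoImplicit false

/-! # W1: periodic harmonic maps -/

namespace Pool.Agent.CT

open Set Metric

theorem w1_a_one {H : Type} [Group H] {a : H → ℂ} (ha : ∀ h k, a (h * k) = a h + a k) :
    a 1 = 0 := by
  have h := ha 1 1
  rw [one_mul] at h
  have h' : a 1 + 0 = a 1 + a 1 := by rw [add_zero]; exact h
  exact (add_left_cancel h').symm

theorem w1_a_inv {H : Type} [Group H] {a : H → ℂ} (ha : ∀ h k, a (h * k) = a h + a k) (h : H) :
    a h⁻¹ = - a h := by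
  have h1 := ha h h⁻¹
  rw [mul_inv_cancel, w1_a_one ha] at h1
  exact (neg_eq_of_add_eq_zero_right h1.symm).symm

/-- The divergence is invariant. -/
theorem w1_equiv {V H : Type} [Group H] [MulAction H V] {c : V → V → ℝ}
    (hinv : ∀ (h : H) u v, c (h • u) (h • v) = c u v) (φ : V → ℂ) {a : H → ℂ}
    (hφ : ∀ (h : H) v, φ (h • v) = φ v + a h) (h : H) (v : V) :
    ∑ᶠ u, c (h • v) u • (φ u - φ (h • v)) = ∑ᶠ u, c v u • (φ u - φ v) := by
  rw [← finsum_comp_equiv (MulAction.toPerm h)]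
  refine finsum_congr (fun u => ?_)
  simp only [MulAction.toPerm_apply]
  rw [hinv, hφ, hφ]
  congr 1
  ring

theorem w1_sum {V H Ω : Type} [Group H] [MulAction H V] [Fintype Ω] {c : V → V → ℝ}
    (hc : Net c) (hsym : ∀ u v, c u v = c v u)
    (hinv : ∀ (h : H) u v, c (h • u) (h • v) = c u v) (φ : V → ℂ) {a : H → ℂ}
    (ha : ∀ h k, a (h * k) = a h + a k)
    (hφ : ∀ (h : H) v, φ (h • v) = φ v + a h) (rep : Ω → V)
    (hbij : Function.Bijective fun p : Ω × H => p.2 • rep p.1) :
    ∑ ω : Ω, ∑ᶠ u, c (rep ω) u • (φ u - φ (rep ω)) = 0 := by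
  set T : Ω → Ω → ℂ := fun ω ω' => ∑ᶠ h : H, c (rep ω) (h • rep ω') • (φ (h • rep ω') - φ (rep ω))
    with hT
  have h1 : ∀ ω, ∑ᶠ u, c (rep ω) u • (φ u - φ (rep ω)) = ∑ ω', T ω ω' := by
    intro ω
    rw [← finsum_comp_equiv (Equiv.ofBijective _ hbij)]
    simp only [Equiv.ofBijective_apply]
    have hfin : (Function.support fun p : Ω × H =>
        c (rep ω) (p.2 • rep p.1) • (φ (p.2 • rep p.1) - φ (rep ω))).Finite := by
      refine ((hc.fin (rep ω)).preimage (f := fun p : Ω × H => p.2 • rep p.1)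
        hbij.1.injOn).subset ?_
      intro p hp
      rw [Function.mem_support] at hp
      show c (rep ω) (p.2 • rep p.1) ≠ 0
      intro h0
      apply hp
      rw [h0, zero_smul]
    rw [finsum_curry _ hfin, finsum_eq_sum_of_fintype]
  have h2 : ∀ ω ω', T ω' ω = - T ω ω' := by
    intro ω ω'
    simp only [hT]
    rw [← finsum_comp_equiv (Equiv.inv H), ← finsum_neg_distrib]
    refine finsum_congr fun h => ?_
    simp only [Equiv.inv_apply]
    have e1 : c (rep ω') (h⁻¹ • rep ω) = c (rep ω) (h • rep ω') := by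
      rw [← hinv h, smul_inv_smul, hsym]
    rw [e1, hφ, hφ, w1_a_inv ha, ← smul_neg]
    congr 1
    ring
  have h3 : ∑ ω : Ω, ∑ ω', T ω ω' = - ∑ ω : Ω, ∑ ω', T ω ω' := by
    conv_lhs => rw [Finset.sum_comm]
    rw [← Finset.sum_neg_distrib]
    refine Finset.sum_congr rfl fun ω _ => ?_
    rw [← Finset.sum_neg_distrib]
    exact Finset.sum_congr rfl fun ω' _ => h2 ω ω'
  rw [Finset.sum_congr rfl fun ω _ => h1 ω]
  exact self_eq_neg.1 h3

/-- W1. -/
theorem perHarm (hD : Stmt_Dirichlet) (_hA : Stmt_Harm) : Stmt_PerHarm := by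
  classical
  intro V H _ _ _ c hc hsym hinv hfree ⟨R, hRfin, hR⟩ hconn a ha
  obtain ⟨v₀⟩ : Nonempty V := inferInstance
  set I : Set V := {v | ∀ h : H, v ≠ h • v₀} with hI
  have hnI : ∀ v, v ∉ I → ∃ h : H, v = h • v₀ := by
    intro v hv
    by_contra hcon
    push Not at hcon
    exact hv hcon
  have horb : ∀ h : H, h • v₀ ∉ I := fun h hh => hh h rfl
  have hinj : ∀ h k : H, h • v₀ = k • v₀ → h = k := by
    intro h k hk
    have h1 : (k⁻¹ * h) • v₀ = v₀ := by rw [mul_smul, hk, inv_smul_smul]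
    have h2 := hfree _ _ h1
    exact (inv_mul_eq_one.1 h2).symm
  set ψ : V → ℂ := fun v => if hv : ∃ h : H, v = h • v₀ then a hv.choose else 0 with hψ
  have hψ0 : ∀ h : H, ψ (h • v₀) = a h := by
    intro h
    have hex : ∃ k : H, h • v₀ = k • v₀ := ⟨h, rfl⟩
    simp only [hψ]
    rw [dif_pos hex]
    rw [← hinj _ _ hex.choose_spec]
  obtain ⟨φ, hφ1, hφ2, hφ3, hφ4⟩ := hD V H c hc hinv hfree a ha I
    (fun h v hv k hk => hv (h⁻¹ * k) (by rw [mul_smul, ← hk, inv_smul_smul]))
    ⟨R, hRfin, fun v _ => hR v⟩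
    (fun v _ => ⟨v₀, by
      have := horb 1
      rwa [one_smul] at this, hconn v v₀⟩) ψ
    (fun h v hv => by
      obtain ⟨k, rfl⟩ := hnI v hv
      rw [smul_smul, hψ0, hψ0, ha, add_comm])
  have hφ0 : φ v₀ = 0 := by
    have h1 := hφ1 ((1 : H) • v₀) (horb 1)
    rw [hψ0, one_smul, w1_a_one ha] at h1
    exact h1
  -- harmonic at the orbit of `v₀`
  have hΩ : Finite (MulAction.orbitRel.Quotient H V) := by
    have : Finite R := hRfin
    refine Finite.of_surjective (fun r : R => (Quotient.mk _ r.1 : MulAction.orbitRel.Quotient H V))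
      ?_
    intro q
    obtain ⟨v, rfl⟩ := Quotient.exists_rep q
    obtain ⟨h, r, hr, rfl⟩ := hR v
    refine ⟨⟨r, hr⟩, ?_⟩
    exact @Quotient.sound V (MulAction.orbitRel H V) _ _ ⟨h⁻¹, by simp⟩
  have : Fintype (MulAction.orbitRel.Quotient H V) := Fintype.ofFinite _
  have hout : ∀ v : V, ∃ h : H,
      h • (Quotient.mk _ v : MulAction.orbitRel.Quotient H V).out = v := by
    intro v
    have h1 : (MulAction.orbitRel H V).r
        v (Quotient.mk _ v : MulAction.orbitRel.Quotient H V).out :=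
      (MulAction.orbitRel H V).symm (Quotient.mk_out (s := MulAction.orbitRel H V) v)
    obtain ⟨h, hh⟩ := h1
    exact ⟨h, hh⟩
  have hbij : Function.Bijective fun p : (MulAction.orbitRel.Quotient H V) × H =>
      p.2 • p.1.out := by
    constructor
    · rintro ⟨q, h⟩ ⟨q', h'⟩ hq
      simp only at hq
      have e1 : q = q' := by
        have h1 : (Quotient.mk _ (h • q.out) : MulAction.orbitRel.Quotient H V) = q := by
          conv_rhs => rw [← Quotient.out_eq q]
          exact Quotient.sound ⟨h, rfl⟩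
        have h2 : (Quotient.mk _ (h' • q'.out) : MulAction.orbitRel.Quotient H V) = q' := by
          conv_rhs => rw [← Quotient.out_eq q']
          exact Quotient.sound ⟨h', rfl⟩
        rw [← h1, ← h2, hq]
      subst e1
      have e2 : (h'⁻¹ * h) • q.out = q.out := by rw [mul_smul, hq, inv_smul_smul]
      have e3 := hfree _ _ e2
      rw [(inv_mul_eq_one.1 e3)]
    · intro v
      obtain ⟨h, hh⟩ := hout v
      exact ⟨(_, h), hh⟩
  have hsum := w1_sum hc hsym hinv φ ha hφ3
    (fun q : MulAction.orbitRel.Quotient H V => q.out) hbij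
  have hG0 : ∑ᶠ u, c v₀ u • (φ u - φ v₀) = 0 := by
    obtain ⟨h, hh⟩ := hout v₀
    rw [← hh, w1_equiv hinv φ hφ3 h]
    rw [← hsum]
    symm
    refine Finset.sum_eq_single_of_mem (Quotient.mk _ v₀) (Finset.mem_univ _) ?_
    intro q _ hq
    refine hφ2 _ ?_
    intro k hk
    apply hq
    rw [← Quotient.out_eq q]
    refine Quotient.sound ?_
    rw [hk]
    exact ⟨k, rfl⟩
  refine ⟨φ, ?_, hφ3, ?_⟩
  · intro v
    by_cases hv : v ∈ I
    · exact hφ2 v hv
    · obtain ⟨h, rfl⟩ := hnI v hv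
      show ∑ᶠ u, c (h • v₀) u • (φ u - φ (h • v₀)) = 0
      rw [w1_equiv hinv φ hφ3 h]
      exact hG0
  · intro φ' hφ' hφ'2
    refine ⟨φ' v₀, fun v => ?_⟩
    have hh : (fun v => φ' v - φ' v₀) = φ := by
      refine hφ4 _ ?_ ?_ ?_
      · intro v hv
        obtain ⟨h, rfl⟩ := hnI v hv
        rw [hψ0, hφ'2]
        ring
      · intro v _
        have h1 := hφ' v
        unfold Harm at h1 ⊢
        rw [← h1]
        refine finsum_congr fun u => ?_
        congr 1
        ring
      · intro h v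
        rw [hφ'2]
        ring
    rw [← hh]
    ring

end Pool.Agent.CT
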