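import Pool.Agent.CT.WDefs

set_option autoImplicit false

/-! # Block W6: local finiteness of the polygons -/

namespace Pool.Agent.CT

open Set Metric

variable {K : DiscTiling}

theorem w6_tile_bdd (f : K.F) : ∃ D : ℝ, ∀ z ∈ f.1, ∀ z' ∈ f.1, ‖z - z'‖ ≤ D := by
  obtain ⟨ψ⟩ := K.n1 f.1 f.2
  have hc : CompactSpace f.1 := ψ.symm.compactSpace
  have hcomp : IsCompact f.1 := isCompact_iff_compactSpace.2 hc
  obtain ⟨D, hD⟩ := Metric.isBounded_iff.1 hcomp.isBounded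
  exact ⟨D, fun z hz z' hz' => by rw [← dist_eq_norm]; exact hD hz hz'⟩

theorem w6_diam {M : PolyMap K.V K.E K.F} (hF : WallFin K M) :
    ∃ D : ℝ, ∀ f : K.F, ∀ z ∈ f.1, ∀ z' ∈ f.1, ‖z - z'‖ ≤ D := by
  obtain ⟨R, hR, hRf⟩ := hF.orbF
  choose D hD using fun f : K.F => w6_tile_bdd f
  obtain ⟨B, hB⟩ := (hR.image D).bddAbove
  refine ⟨B, fun f z hz z' hz' => ?_⟩
  obtain ⟨h, r, hr, rfl⟩ := hRf f
  rw [smul_F_trans] at hz hz'
  obtain ⟨y, hy, rfl⟩ := hz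
  obtain ⟨y', hy', rfl⟩ := hz'
  have h1 : y + tvec h - (y' + tvec h) = y - y' := by ring
  show ‖y + tvec h - (y' + tvec h)‖ ≤ B
  rw [h1]
  exact (hD r y hy y' hy').trans (hB (mem_image_of_mem _ hr))

theorem wallLoc : Stmt_WallLoc := by
  intro K M hM hT hF φ hφ w r
  obtain ⟨D, hD⟩ := w6_diam hF
  obtain ⟨C, hC⟩ := hφ.bdd
  refine (hF.locF (‖w‖ + r + D + 3 * C)).subset ?_
  rintro f ⟨z, hz, hzr⟩
  have hvf : ∀ v, M.vf v f → v.1 ∈ f.1 := by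
    rintro v ⟨e, hve, hef⟩
    exact (hM.ef e f).1 hef ((hM.ve v e).1 hve)
  have hne : (φ '' {v | M.vf v f}).Nonempty := by
    rw [← convexHull_nonempty_iff (𝕜 := ℝ)]
    exact ⟨z, hz⟩
  obtain ⟨_, v, hv, rfl⟩ := hne
  have hsub : poly M.toInc φ f ⊆ closedBall (φ v) (D + 2 * C) := by
    refine convexHull_min ?_ (convex_closedBall _ _)
    rintro _ ⟨u, hu, rfl⟩
    rw [mem_closedBall, dist_eq_norm]
    have h1 := hD f u.1 (hvf u hu) v.1 (hvf v hv)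
    have h2 := hC u
    have h3 := hC v
    have h4 : φ u - φ v = (φ u - u.1) + (u.1 - v.1) - (φ v - v.1) := by ring
    rw [h4]
    calc ‖(φ u - u.1) + (u.1 - v.1) - (φ v - v.1)‖
        ≤ ‖(φ u - u.1) + (u.1 - v.1)‖ + ‖φ v - v.1‖ := norm_sub_le _ _
      _ ≤ ‖φ u - u.1‖ + ‖u.1 - v.1‖ + ‖φ v - v.1‖ := by
          gcongr
          exact norm_add_le _ _
      _ ≤ D + 2 * C := by linarith
  have h1 := hsub hz
  rw [mem_closedBall, dist_eq_norm] at h1 hzr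
  have h2 := hC v
  refine ⟨v.1, hvf v hv, ?_⟩
  have h3 : v.1 = w + (z - w) - (z - φ v) - (φ v - v.1) := by ring
  rw [h3]
  calc ‖w + (z - w) - (z - φ v) - (φ v - v.1)‖
      ≤ ‖w + (z - w) - (z - φ v)‖ + ‖φ v - v.1‖ := norm_sub_le _ _
    _ ≤ ‖w + (z - w)‖ + ‖z - φ v‖ + ‖φ v - v.1‖ := by
        gcongr
        exact norm_sub_le _ _
    _ ≤ ‖w‖ + ‖z - w‖ + ‖z - φ v‖ + ‖φ v - v.1‖ := by
        gcongr
        exact norm_add_le _ _
    _ ≤ ‖w‖ + r + D + 3 * C := by linarith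

end Pool.Agent.CT
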