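import Pool.Agent.CT.WDefs

set_option autoImplicit false

/-! # W7: faces and edges of a map satisfying the conclusions of the block theorem -/

namespace Pool.Agent.CT

open Set Metric

/-- The functional vanishing on the line `a b`. -/
theorem w7_dir (s : ℝ) (a b c : ℂ) :
    dir (⟨s * (b.im - a.im), -s * (b.re - a.re)⟩ : ℂ) c =
      dir (⟨s * (b.im - a.im), -s * (b.re - a.re)⟩ : ℂ) a - s * cross a b c := by
  simp only [dir, cross]
  ring

theorem w7_cross_ab (a b : ℂ) : cross a b b = 0 := by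
  simp only [cross]
  ring

/-- W7. -/
theorem oppOf (hF : Stmt_FaceCycle) (hS : Stmt_FaceStrict) : Stmt_OppOf := by
  intro V E F M φ hB
  constructor
  · intro f
    obtain ⟨n, x, y, hc⟩ := hF V E F M f
    exact (hS V E F M.toInc φ f n x y hc (hB.strict f n x y hc)).1
  · intro e f g hfg hef heg
    obtain ⟨n, x, y, hc⟩ := hF V E F M f
    have hst := hB.strict f n x y hc
    have hn : (3 : ℤ) ≤ n := by exact_mod_cast hc.three
    obtain ⟨i, hi⟩ := (hc.curve.mem e).1 hef
    have hve : ∀ v, M.ve v e ↔ (v = x i ∨ v = x (i + 1)) := by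
      intro v
      have := hc.curve.ve i v
      rwa [hi] at this
    obtain ⟨σ, hσ, hconv⟩ := hst.conv
    have hne : x i ≠ x (i + 1) := by
      intro h
      have h1 := (hc.curve.x_eq i (i + 1)).1 h
      have h2 : (n : ℤ) ∣ 1 := by
        have : (n : ℤ) ∣ -(i - (i + 1)) := (dvd_neg).2 h1
        simpa using this
      have := Int.le_of_dvd one_pos h2
      omega
    -- the other vertices of `f`
    have hf : ∀ p, M.vf p f → p ≠ x i → p ≠ x (i + 1) →
        0 < σ * cross (φ (x i)) (φ (x (i + 1))) (φ p) := by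
      rintro p ⟨d, hd1, hd2⟩ h1 h2
      obtain ⟨k, hk⟩ := (hc.curve.mem d).1 hd2
      have hpk : ∃ j, p = x j := by
        rw [← hk] at hd1
        rcases (hc.curve.ve k p).1 hd1 with h | h
        · exact ⟨k, h⟩
        · exact ⟨k + 1, h⟩
      obtain ⟨j, rfl⟩ := hpk
      refine hconv i j ?_ ?_
      · intro h
        exact h1 ((hc.curve.x_eq j i).2 h)
      · intro h
        exact h2 ((hc.curve.x_eq j (i + 1)).2 h)
    -- a third vertex
    obtain ⟨p, hp, hp1, hp2⟩ : ∃ p, M.vf p f ∧ p ≠ x i ∧ p ≠ x (i + 1) := by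
      refine ⟨x (i + 2), ⟨y (i + 2), (hc.curve.ve _ _).2 (Or.inl rfl),
        (hc.curve.mem _).2 ⟨i + 2, rfl⟩⟩, ?_, ?_⟩
      · intro h
        have h1 := (hc.curve.x_eq _ _).1 h
        have h2 : (n : ℤ) ∣ 2 := by
          simpa using h1
        have := Int.le_of_dvd two_pos h2
        omega
      · intro h
        have h1 := (hc.curve.x_eq _ _).1 h
        have h2 : (n : ℤ) ∣ 1 := by
          have h3 : i + 2 - (i + 1) = 1 := by ring
          rwa [h3] at h1
        have := Int.le_of_dvd one_pos h2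
        omega
    have hpos := hf p hp hp1 hp2
    have hg : ∀ q, M.vf q g → q ≠ x i → q ≠ x (i + 1) →
        σ * cross (φ (x i)) (φ (x (i + 1))) (φ q) < 0 := by
      intro q hq hq1 hq2
      have h := hB.opp e f g (x i) (x (i + 1)) p q hfg hef heg hne ((hve _).2 (Or.inl rfl))
        ((hve _).2 (Or.inr rfl)) hp hp1 hp2 hq hq1 hq2
      rcases hσ with h' | h' <;> rw [h'] at hpos ⊢ <;> nlinarith
    refine ⟨⟨σ * ((φ (x (i + 1))).im - (φ (x i)).im), -σ * ((φ (x (i + 1))).re - (φ (x i)).re)⟩,
      dir ⟨σ * ((φ (x (i + 1))).im - (φ (x i)).im), -σ * ((φ (x (i + 1))).re - (φ (x i)).re)⟩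
        (φ (x i)), ?_, ?_, ?_, ?_⟩
    · intro h
      have h1 := w7_dir σ (φ (x i)) (φ (x (i + 1))) (φ p)
      rw [h] at h1
      simp only [dir, Complex.zero_re, Complex.zero_im, zero_mul, add_zero, zero_sub] at h1
      linarith
    · intro v hv
      rcases (hve v).1 hv with h | h
      · rw [h]
      · rw [h, w7_dir σ (φ (x i)) (φ (x (i + 1))) (φ (x (i + 1))), w7_cross_ab]
        ring
    · intro v hv
      by_cases h1 : v = x i
      · rw [h1]
      by_cases h2 : v = x (i + 1)
      · rw [h2, w7_dir σ (φ (x i)) (φ (x (i + 1))) (φ (x (i + 1))), w7_cross_ab]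
        simp
      rw [w7_dir σ (φ (x i)) (φ (x (i + 1))) (φ v)]
      have := hf v hv h1 h2
      linarith
    · intro v hv
      by_cases h1 : v = x i
      · rw [h1]
      by_cases h2 : v = x (i + 1)
      · rw [h2, w7_dir σ (φ (x i)) (φ (x (i + 1))) (φ (x (i + 1))), w7_cross_ab]
        simp
      rw [w7_dir σ (φ (x i)) (φ (x (i + 1))) (φ v)]
      have := hg v hv h1 h2
      linarith

end Pool.Agent.CT
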