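import Pool.Agent.CT.WDefs

set_option autoImplicit false

/-! # W3: the periodic harmonic drawing of a tiling -/

namespace Pool.Agent.CT

open Set Metric

section basics

variable {V E F : Type}

theorem w3_wt_ne {M : Inc V E F} {u v : V} (h : wt M u v ≠ 0) : M.vadj.Adj u v := by
  classical
  by_contra hn
  exact h (by simp [wt, hn])

theorem w3_wt_symm (M : Inc V E F) (u v : V) : wt M u v = wt M v u := by
  classical
  simp only [wt, SimpleGraph.adj_comm]

theorem w3_wt_pos {M : Inc V E F} {u v : V} (h : M.vadj.Adj u v) : 0 < wt M u v := by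
  classical
  simp [wt, h]

/-- The weights have finite range. -/
theorem w3_net (M : PolyMap V E F) : Net (wt M.toInc) where
  fin := by
    intro v
    have h1 : (⋃ e ∈ {e | M.ve v e}, {u | M.ve u e}).Finite := by
      refine (M.vert_fin v).biUnion fun e _ => ?_
      obtain ⟨a, b, -, hab⟩ := M.edge_verts e
      refine (Set.toFinite {a, b}).subset ?_
      intro u hu
      exact (hab u).1 hu
    refine h1.subset ?_
    intro u hu
    obtain ⟨-, e, h1, h2⟩ := w3_wt_ne hu
    simp only [mem_iUnion]
    exact ⟨e, h1, h2⟩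
  nonneg := by
    intro v u
    classical
    unfold wt
    split_ifs
    · exact zero_le_one
    · exact le_refl _

/-- Weights are invariant under automorphisms. -/
theorem w3_wt_smul {M : Inc V E F} {G : Type} [Group G] [MulAction G V] [MulAction G E]
    [MulAction G F] (hM : Equiv M G) (g : G) (u v : V) : wt M (g • u) (g • v) = wt M u v := by
  classical
  have key : ∀ (g : G) (u v : V), M.vadj.Adj u v → M.vadj.Adj (g • u) (g • v) := by
    rintro g u v ⟨h1, e, h2, h3⟩
    exact ⟨fun h => h1 (smul_left_cancel g h), g • e, hM.ve g u e h2, hM.ve g v e h3⟩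
  have h : M.vadj.Adj (g • u) (g • v) ↔ M.vadj.Adj u v := by
    constructor
    · intro h
      have h2 := key g⁻¹ _ _ h
      rwa [inv_smul_smul, inv_smul_smul] at h2
    · exact key g u v
  simp only [wt, h]

/-- Everything is connected. -/
theorem w3_conn {M : Inc V E F} (h : ConnIn M.vadj univ) (u v : V) :
    Relation.ReflTransGen (Step (wt M)) u v := by
  have h2 : Relation.ReflTransGen (fun x y => M.vadj.Adj x y ∧ x ∈ (univ : Set V) ∧
    y ∈ (univ : Set V)) u v := h u trivial v trivial
  induction h2 with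
  | refl => exact Relation.ReflTransGen.refl
  | tail _ hab ih => exact ih.tail (w3_wt_pos hab.1)

end basics

/-- The linear part of an isometry of the plane. -/
theorem w3_lin (s : ℂ ≃ᵢ ℂ) : ∃ A : ℂ ≃ₗᵢ[ℝ] ℂ, ∀ z, s z = A z + s 0 := by
  set B : ℂ ≃ᵢ ℂ := s.trans (IsometryEquiv.addRight (-(s 0))) with hB
  have hB' : ∀ z, B z = s z - s 0 := by
    intro z
    simp [hB, IsometryEquiv.trans_apply, sub_eq_add_neg]
  have hB0 : B 0 = 0 := by
    rw [hB']
    simp
  refine ⟨B.toRealLinearIsometryEquivOfMapZero hB0, fun z => ?_⟩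
  have : (B.toRealLinearIsometryEquivOfMapZero hB0) z = B z := rfl
  rw [this, hB']
  ring

/-- Conjugating a translation by a symmetry. -/
theorem w3_conj {K : DiscTiling} (S : symGroup K.T) (A : ℂ ≃ₗᵢ[ℝ] ℂ)
    (hA : ∀ z, S.1 z = A z + S.1 0) (h : transGrp K) :
    ∃ h' : transGrp K, tvec h' = A (tvec h) ∧ ∀ v : K.V, S • (h • v) = h' • (S • v) := by
  have hform : ∀ z : ℂ, (S * h.1 * S⁻¹).1 z = z + A (tvec h) := by
    intro z
    show S.1 (h.1.1 (S.1.symm z)) = _
    rw [trans_apply h, hA, map_add]
    have h3 : S.1 (S.1.symm z) = z := S.1.apply_symm_apply z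
    rw [hA] at h3
    calc A (S.1.symm z) + A (tvec h) + S.1 0 = (A (S.1.symm z) + S.1 0) + A (tvec h) := by ring
      _ = z + A (tvec h) := by rw [h3]
  refine ⟨⟨S * h.1 * S⁻¹, A (tvec h), hform⟩, ?_, ?_⟩
  · show (S * h.1 * S⁻¹).1 0 = _
    rw [hform, zero_add]
  · intro v
    show S • (h.1 • v) = (S * h.1 * S⁻¹) • (S • v)
    rw [mul_smul, mul_smul, inv_smul_smul]

theorem wallPhi (h1 : Stmt_PerHarm) : Stmt_WallPhi := by
  intro K M hK hfin
  have : Infinite K.V := M.vinf
  have hnet := w3_net M.toPolyMap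
  have hinv : ∀ (h : transGrp K) (u v : K.V),
      wt M.toInc (h • u) (h • v) = wt M.toInc u v := fun h u v =>
    w3_wt_smul hfin.symM h.1 u v
  obtain ⟨φ, hharm, hper, huniq⟩ := h1 K.V (transGrp K) (wt M.toInc) hnet (w3_wt_symm M.toInc)
    hinv hfin.free hfin.orbV (w3_conn M.vconn) tvec tvec_mul
  refine ⟨φ, hharm, hper, ?_, ?_⟩
  · -- equivariance
    intro s hs
    set S : symGroup K.T := ⟨s, hs⟩ with hS
    obtain ⟨A, hA⟩ := w3_lin s
    obtain ⟨k, hk⟩ := huniq (fun v => A.symm (φ (S • v))) (by
      intro v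
      have h2 : Harm (wt M.toInc) φ (S • v) := hharm (S • v)
      unfold Harm at h2 ⊢
      have h3 : ∀ u, wt M.toInc v u • (A.symm (φ (S • u)) - A.symm (φ (S • v))) =
          A.symm (wt M.toInc (S • v) (S • u) • (φ (S • u) - φ (S • v))) := by
        intro u
        rw [w3_wt_smul hfin.symM S v u, map_smul, map_sub]
      have hfs : (Function.support fun u => wt M.toInc v u • (φ (S • u) - φ (S • v))).Finite := by
        refine (hnet.fin v).subset ?_
        intro u hu h0
        exact hu (by
          show wt M.toInc v u • (φ (S • u) - φ (S • v)) = 0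
          rw [h0, zero_smul])
      have h4 : (∑ᶠ u, wt M.toInc v u • (A.symm (φ (S • u)) - A.symm (φ (S • v)))) =
          A.symm (∑ᶠ u, wt M.toInc v u • (φ (S • u) - φ (S • v))) := by
        have h5 := AddMonoidHom.map_finsum (f := fun u => wt M.toInc v u •
          (φ (S • u) - φ (S • v))) (A.symm.toLinearEquiv.toLinearMap.toAddMonoidHom) hfs
        refine Eq.trans ?_ h5.symm
        refine finsum_congr fun u => ?_
        show _ = A.symm (wt M.toInc v u • (φ (S • u) - φ (S • v)))
        rw [map_smul, map_sub]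
      rw [h4]
      have h6 : (∑ᶠ u, wt M.toInc v u • (φ (S • u) - φ (S • v))) =
          ∑ᶠ u, wt M.toInc (S • v) u • (φ u - φ (S • v)) := by
        refine Eq.trans ?_ (finsum_comp_equiv (MulAction.toPerm S : Equiv.Perm K.V))
        refine finsum_congr fun u => ?_
        show _ = wt M.toInc (S • v) (S • u) • (φ (S • u) - φ (S • v))
        rw [w3_wt_smul hfin.symM S v u]
      rw [h6, h2, map_zero]) (by
      intro h v
      obtain ⟨h', hh', hc⟩ := w3_conj S A hA h
      show A.symm (φ (S • (h • v))) = A.symm (φ (S • v)) + tvec h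
      rw [hc v, hper, hh', map_add, A.symm_apply_apply])
    refine ⟨(IsometryEquiv.addRight k).trans A.toIsometryEquiv, ?_⟩
    intro v w hw
    have hw' : w = S • v := Subtype.ext hw
    have h2 : A.symm (φ (S • v)) = φ v + k := hk v
    rw [hw']
    show φ (S • v) = A (φ v + k)
    rw [← h2, A.apply_symm_apply]
  · -- bounded distance
    obtain ⟨R, hR, hR'⟩ := hfin.orbV
    obtain ⟨C, hC⟩ := (hR.image fun r => ‖φ r - r.1‖).bddAbove
    refine ⟨C, fun v => ?_⟩
    obtain ⟨h, r, hr, rfl⟩ := hR' v
    have h2 : φ (h • r) - (h • r).1 = φ r - r.1 := by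
      rw [hper, smul_V_trans]
      ring
    rw [h2]
    exact hC (mem_image_of_mem _ hr)

end Pool.Agent.CT
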