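import Pool.Agent.CT.WDefs

set_option autoImplicit false

/-! # W10: a reference point -/

namespace Pool.Agent.CT

open Set Metric

section w10

variable {V E F : Type}

theorem w10_dir_add (w a b : ℂ) : dir w (a + b) = dir w a + dir w b := by
  simp only [dir, Complex.add_re, Complex.add_im]
  ring

theorem w10_dir_smul (w a : ℂ) (t : ℝ) : dir w (t • a) = t * dir w a := by
  simp only [dir, Complex.smul_re, Complex.smul_im, smul_eq_mul]
  ring

/-- The functional as a linear map. -/
noncomputable def w10_dirL (w : ℂ) : ℂ →ₗ[ℝ] ℝ where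
  toFun := dir w
  map_add' := w10_dir_add w
  map_smul' := fun t a => w10_dir_smul w a t

theorem w10_hull_le (w : ℂ) (c : ℝ) (S : Set ℂ) (h : ∀ z ∈ S, dir w z ≤ c) :
    ∀ z ∈ convexHull ℝ S, dir w z ≤ c := by
  have h1 : Convex ℝ {z : ℂ | dir w z ≤ c} :=
    convex_halfSpace_le (w10_dirL w).isLinear c
  intro z hz
  exact convexHull_min (s := S) (fun y hy => h y hy) h1 hz

theorem w10_hull_ge (w : ℂ) (c : ℝ) (S : Set ℂ) (h : ∀ z ∈ S, c ≤ dir w z) :
    ∀ z ∈ convexHull ℝ S, c ≤ dir w z := by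
  have h1 : Convex ℝ {z : ℂ | c ≤ dir w z} :=
    convex_halfSpace_ge (w10_dirL w).isLinear c
  intro z hz
  exact convexHull_min (s := S) (fun y hy => h y hy) h1 hz

theorem w10_sign (T : ℤ → ℝ) (h : ∀ i, 0 < (T i - T (i - 1)) * (T (i + 1) - T i)) :
    ∃ σ : ℝ, (σ = 1 ∨ σ = -1) ∧ StrictMono (fun i => σ * T i) := by
  have key : ∀ σ : ℝ, 0 < σ * (T 1 - T 0) → ∀ i : ℤ, 0 < σ * (T (i + 1) - T i) := by
    intro σ h0 i
    have up : ∀ j : ℤ, 0 < σ * (T (j + 1) - T j) → 0 < σ * (T (j + 1 + 1) - T (j + 1)) := by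
      intro j hj
      have h1 := h (j + 1)
      rw [add_sub_cancel_right] at h1
      by_contra hcon
      push Not at hcon
      nlinarith [mul_nonneg hj.le (neg_nonneg.2 hcon), sq_nonneg σ,
        mul_pos (pow_pos (lt_of_le_of_ne (sq_nonneg σ) (by
          intro hz
          have : σ = 0 := by
            have := hz.symm
            exact pow_eq_zero_iff (two_ne_zero) |>.1 this
          rw [this] at h0
          simp at h0)) 1) h1]
    have down : ∀ j : ℤ, 0 < σ * (T (j + 1) - T j) → 0 < σ * (T (j - 1 + 1) - T (j - 1)) := by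
      intro j hj
      have h1 := h j
      rw [sub_add_cancel]
      by_contra hcon
      push Not at hcon
      nlinarith [mul_nonneg hj.le (neg_nonneg.2 hcon), sq_nonneg σ,
        mul_pos (pow_pos (lt_of_le_of_ne (sq_nonneg σ) (by
          intro hz
          have : σ = 0 := by
            have := hz.symm
            exact pow_eq_zero_iff (two_ne_zero) |>.1 this
          rw [this] at h0
          simp at h0)) 1) h1]
    induction i using Int.induction_on with
    | zero => simpa using h0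
    | succ j ih => exact up _ ih
    | pred j ih => exact down _ ih
  have h0 := h 0
  rw [zero_add] at h0
  have hne : T 1 - T 0 ≠ 0 := by
    intro h1
    rw [h1, mul_zero] at h0
    exact lt_irrefl _ h0
  rcases lt_or_gt_of_ne hne with h1 | h1
  · refine ⟨-1, Or.inr rfl, strictMono_int_of_lt_succ fun i => ?_⟩
    have := key (-1) (by linarith) i
    show (-1 : ℝ) * T i < -1 * T (i + 1)
    linarith
  · refine ⟨1, Or.inl rfl, strictMono_int_of_lt_succ fun i => ?_⟩
    have := key 1 (by linarith) i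
    show (1 : ℝ) * T i < 1 * T (i + 1)
    linarith

theorem w10_seg_im (σ : ℝ) (a b z : ℂ) (hz : z ∈ segment ℝ a b) (h : σ * a.im ≤ σ * b.im) :
    σ * a.im ≤ σ * z.im ∧ σ * z.im ≤ σ * b.im := by
  obtain ⟨s, t, hs, ht, hst, rfl⟩ := hz
  have h1 : (s • a + t • b).im = s * a.im + t * b.im := by
    simp [Complex.add_im]
  rw [h1]
  have hs' : s = 1 - t := by linarith
  subst hs'
  constructor
  · nlinarith
  · nlinarith

end w10

theorem refPoint (hO : Stmt_OppOf) (h8 : Stmt_DualBond) (h9 : Stmt_Cross) : Stmt_RefPoint := by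
  intro V E F _ _ M φ hB hconn hunb
  -- a generic vertical line
  obtain ⟨c, hc⟩ : ∃ c : ℝ, ∀ v, dir 1 (φ v) ≠ c := by
    have h1 : (range fun v => dir 1 (φ v)).Countable := countable_range _
    by_contra hcon
    push Not at hcon
    have h2 : (range fun v => dir 1 (φ v)) = univ := by
      rw [eq_univ_iff_forall]
      intro c
      exact hcon c
    rw [h2] at h1
    exact Cardinal.not_countable_real h1
  have h1ne : (1 : ℂ) ≠ 0 := one_ne_zero
  set A : Set V := {v | c < dir 1 (φ v)} with hA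
  have hAc : Aᶜ = {v | -c < dir (-1) (φ v)} := by
    ext v
    have e1 : dir (-1) (φ v) = - dir 1 (φ v) := by
      simp [dir]
    simp only [hA, mem_compl_iff, mem_ofPred_eq, not_lt]
    rw [e1]
    constructor
    · intro h
      have := lt_of_le_of_ne h (hc v)
      linarith
    · intro h
      linarith
  obtain ⟨n, x, y, hxy⟩ := h8 V E F M A (hunb 1 h1ne c)
    (by rw [hAc]; exact hunb (-1) (neg_ne_zero.2 h1ne) (-c))
    (hconn 1 h1ne c) (by rw [hAc]; exact hconn (-1) (neg_ne_zero.2 h1ne) (-c))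
  obtain ⟨hF, hOp⟩ := hO V E F M.toPolyMap φ hB
  obtain ⟨k1, k2, k3⟩ := h9 V E F M.toPolyMap φ hB 1 c h1ne hc
  have hn1 : ¬ (n : ℤ) ∣ 1 := by
    intro h
    rcases hxy.n_ne with h0 | h0
    · rw [h0] at h
      simp at h
    · have := Int.le_of_dvd one_pos h
      omega
  have hyne : ∀ i, y (i - 1) ≠ y i := by
    intro i h
    rw [hxy.y_eq] at h
    apply hn1
    have : i - 1 - i = -1 := by ring
    rw [this] at h
    exact (Int.dvd_neg).1 h
  have hxne : ∀ i, x i ≠ x (i + 1) := by
    intro i h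
    rw [hxy.x_eq] at h
    apply hn1
    have : i - (i + 1) = -1 := by ring
    rw [this] at h
    exact (Int.dvd_neg).1 h
  have hyfr : ∀ i, y i ∈ fr M.toInc.dual A := fun i => (hxy.mem _).2 ⟨i, rfl⟩
  have hface : ∀ i d, (M.ef d (x i) ∧ d ∈ fr M.toInc.dual A) ↔ (d = y (i - 1) ∨ d = y i) := by
    intro i d
    constructor
    · rintro ⟨h, hd⟩
      obtain ⟨j, rfl⟩ := (hxy.mem _).1 hd
      rcases (hxy.ve j (x i)).1 h with h | h
      · right
        rw [hxy.x_eq] at h
        rw [hxy.y_eq]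
        have : j - i = - (i - j) := by ring
        rw [this]
        exact (Int.dvd_neg).2 h
      · left
        rw [hxy.x_eq] at h
        rw [hxy.y_eq]
        have : j - (i - 1) = - (i - (j + 1)) := by ring
        rw [this]
        exact (Int.dvd_neg).2 h
    · rintro (rfl | rfl)
      · refine ⟨(hxy.ve (i - 1) (x i)).2 (Or.inr ?_), hyfr _⟩
        rw [sub_add_cancel]
      · exact ⟨(hxy.ve i (x i)).2 (Or.inl rfl), hyfr _⟩
  have hX : ∀ i, ∃ z, z ∈ seg M.toInc φ (y i) ∧ dir 1 z = c := by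
    intro i
    obtain ⟨z, h1, h2, -⟩ := k2 (y i) (hyfr i)
    exact ⟨z, h1, h2⟩
  choose X hX1 hX2 using hX
  have hre : ∀ z : ℂ, dir 1 z = z.re := by
    intro z
    simp [dir]
  have hXre : ∀ i, (X i).re = c := fun i => by rw [← hre, hX2]
  have hpoly : ∀ i, X (i - 1) ≠ X i ∧
      poly M.toInc φ (x i) ∩ {z | dir 1 z = c} = segment ℝ (X (i - 1)) (X i) ∧
      (∀ t ∈ openSegment ℝ (X (i - 1)) (X i), t ∈ interior (poly M.toInc φ (x i))) := by
    intro i
    exact k3 (x i) (y (i - 1)) (y i) (hyne i) (hface i) (X (i - 1)) (X i) (hX1 _) (hX2 _)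
      (hX1 _) (hX2 _)
  have hTne : ∀ i, (X (i - 1)).im ≠ (X i).im := by
    intro i h
    apply (hpoly i).1
    exact Complex.ext (by rw [hXre, hXre]) h
  have hXl : ∀ i, X (i - 1) ∈ poly M.toInc φ (x i) := by
    intro i
    have : X (i - 1) ∈ segment ℝ (X (i - 1)) (X i) := left_mem_segment ℝ _ _
    rw [← (hpoly i).2.1] at this
    exact this.1
  have hXr : ∀ i, X i ∈ poly M.toInc φ (x i) := by
    intro i
    have : X i ∈ segment ℝ (X (i - 1)) (X i) := right_mem_segment ℝ _ _
    rw [← (hpoly i).2.1] at this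
    exact this.1
  -- strict monotonicity
  obtain ⟨σ, hσ, hmono⟩ := w10_sign (fun i => (X i).im) (by
    intro i
    obtain ⟨w, c', hw, h1, h2, h3⟩ := hOp (y i) (x i) (x (i + 1)) (hxne i)
      ((hxy.ve i (x i)).2 (Or.inl rfl)) ((hxy.ve i (x (i + 1))).2 (Or.inr rfl))
    have e1 : dir w (X i) = c' := by
      apply le_antisymm
      · refine w10_hull_le w c' _ ?_ _ (hX1 i)
        rintro _ ⟨v, hv, rfl⟩
        exact (h1 v hv).le
      · refine w10_hull_ge w c' _ ?_ _ (hX1 i)
        rintro _ ⟨v, hv, rfl⟩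
        exact (h1 v hv).ge
    have e2 : dir w (X (i - 1)) ≤ c' := by
      refine w10_hull_le w c' _ ?_ _ (hXl i)
      rintro _ ⟨v, hv, rfl⟩
      exact h2 v hv
    have e3 : c' ≤ dir w (X (i + 1)) := by
      refine w10_hull_ge w c' _ ?_ _ (hXr (i + 1))
      rintro _ ⟨v, hv, rfl⟩
      exact h3 v hv
    have hwim : w.im ≠ 0 := by
      intro h0
      obtain ⟨⟨u, hu, hu'⟩, ⟨v, hv, hv'⟩⟩ := hyfr i
      have a1 : dir w (φ u) = c' := h1 u hu'
      have a2 : dir w (φ v) = c' := h1 v hv'
      have a3 : c < (φ u).re := by rw [← hre]; exact hu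
      have a4 : (φ v).re ≤ c := by
        rw [← hre]
        exact not_lt.1 hv
      rw [dir, h0, zero_mul, add_zero] at a1 a2
      have a5 : w.re * ((φ u).re - (φ v).re) = 0 := by linarith
      rcases mul_eq_zero.1 a5 with h | h
      · exact hw (Complex.ext h h0)
      · linarith
    have hd1 : 0 < w.im * ((X i).im - (X (i - 1)).im) := by
      refine lt_of_le_of_ne ?_ ?_
      · rw [dir, hXre] at e1 e2
        linarith
      · intro h
        rcases mul_eq_zero.1 h.symm with h | h
        · exact hwim h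
        · exact hTne i (by linarith)
    have hd2 : 0 < w.im * ((X (i + 1)).im - (X i).im) := by
      refine lt_of_le_of_ne ?_ ?_
      · rw [dir, hXre] at e1 e3
        linarith
      · intro h
        rcases mul_eq_zero.1 h.symm with h | h
        · exact hwim h
        · have := hTne (i + 1)
          rw [add_sub_cancel_right] at this
          exact this (by linarith)
    have hd3 := mul_pos hd1 hd2
    have hw2 : 0 < w.im * w.im := mul_self_pos.2 hwim
    have hd4 : w.im * ((X i).im - (X (i - 1)).im) * (w.im * ((X (i + 1)).im - (X i).im)) =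
      w.im * w.im * (((X i).im - (X (i - 1)).im) * ((X (i + 1)).im - (X i).im)) := by ring
    rw [hd4] at hd3
    exact (pos_iff_pos_of_mul_pos hd3).1 hw2)
  -- the reference point
  have hw0 : midpoint ℝ (X (-1)) (X 0) ∈ openSegment ℝ (X (0 - 1)) (X 0) := by
    rw [zero_sub]
    refine ⟨1 / 2, 1 / 2, by norm_num, by norm_num, by norm_num, ?_⟩
    rw [midpoint_eq_smul_add]
    simp [smul_add]
  have hm : (midpoint ℝ (X (-1)) (X 0)).im = ((X (-1)).im + (X 0).im) / 2 := by
    rw [midpoint_eq_smul_add]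
    simp only [invOf_eq_inv, Complex.smul_im, Complex.add_im, smul_eq_mul]
    ring
  have hmr : (midpoint ℝ (X (-1)) (X 0)).re = c := by
    rw [midpoint_eq_smul_add]
    simp only [invOf_eq_inv, Complex.smul_re, Complex.add_re, smul_eq_mul, hXre]
    ring
  have hlt : σ * (X (-1)).im < σ * (X 0).im := hmono (by norm_num)
  refine ⟨midpoint ℝ (X (-1)) (X 0), x 0, (hpoly 0).2.2 _ hw0, ?_⟩
  intro f hf hmem
  have hcr : ∃ k, f = x k := by
    by_contra hcon
    push Not at hcon
    have h1 := k1 f (by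
      intro e he hefr
      obtain ⟨j, rfl⟩ := (hxy.mem _).1 hefr
      rcases (hxy.ve j f).1 he with h | h
      · exact hcon _ h
      · exact hcon _ h)
    have h2 : midpoint ℝ (X (-1)) (X 0) ∈ poly M.toInc φ f ∩ {z | dir 1 z = c} :=
      ⟨hmem, by show dir 1 _ = c; rw [hre, hmr]⟩
    rw [h1] at h2
    exact h2
  obtain ⟨k, rfl⟩ := hcr
  have h2 : midpoint ℝ (X (-1)) (X 0) ∈ poly M.toInc φ (x k) ∩ {z | dir 1 z = c} :=
    ⟨hmem, by show dir 1 _ = c; rw [hre, hmr]⟩
  rw [(hpoly k).2.1] at h2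
  have hk0 : k ≠ 0 := by
    rintro rfl
    exact hf rfl
  have hle : σ * (X (k - 1)).im ≤ σ * (X k).im := (hmono (by linarith : k - 1 < k)).le
  obtain ⟨b1, b2⟩ := w10_seg_im σ _ _ _ h2 hle
  rw [hm] at b1 b2
  rcases lt_or_gt_of_ne hk0 with h | h
  · have : σ * (X k).im ≤ σ * (X (-1)).im := hmono.monotone (by omega : k ≤ -1)
    nlinarith
  · have : σ * (X 0).im ≤ σ * (X (k - 1)).im := hmono.monotone (by omega : 0 ≤ k - 1)
    nlinarith

end Pool.Agent.CT
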