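import Pool.Agent.CT.WDefs

set_option autoImplicit false

/-! # W4: upper level sets of the periodic harmonic drawing are connected -/

namespace Pool.Agent.CT

open Set Metric

section w4

theorem w4_min {α : Type} {G : SimpleGraph α} {a b : α} (h : ReachIn G univ a b) (f : α → ℝ) :
    ∃ μ : ℝ, ReachIn G {v | μ ≤ f v} a b := by
  induction h with
  | refl => exact ⟨f a, ReachIn.refl _⟩
  | @tail x y _ h1 ih =>
    obtain ⟨μ, hμ⟩ := ih
    refine ⟨min μ (min (f x) (f y)), ?_⟩
    refine (hμ.mono fun v hv => ?_).tail h1.1 ?_ ?_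
    · have hv' : μ ≤ f v := hv
      exact (min_le_left μ (min (f x) (f y))).trans hv'
    · show min μ (min (f x) (f y)) ≤ f x
      exact le_trans (min_le_right _ _) (min_le_left _ _)
    · show min μ (min (f x) (f y)) ≤ f y
      exact le_trans (min_le_right _ _) (min_le_right _ _)

theorem w4_bound {α : Type} {R : Set α} (hR : R.Finite) (P : α → ℝ → Prop)
    (hP : ∀ r ∈ R, ∃ d, P r d) (hmono : ∀ r d d', d ≤ d' → P r d → P r d') :
    ∃ d, ∀ r ∈ R, P r d := by
  classical
  choose! g hg using hP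
  obtain ⟨d, hd⟩ := (hR.image g).bddAbove
  exact ⟨d, fun r hr => hmono r _ _ (hd (mem_image_of_mem g hr)) (hg r hr)⟩

variable {K : DiscTiling} {M : PlaneMap K.V K.E K.F}

theorem w4_adj (hM : Equiv M.toInc (symGroup K.T)) (h : transGrp K) {u v : K.V}
    (huv : M.vadj.Adj u v) : M.vadj.Adj (h • u) (h • v) := by
  obtain ⟨hne, e, h1, h2⟩ := huv
  exact ⟨fun hh => hne (smul_left_cancel h hh), (h : symGroup K.T) • e,
    hM.ve (h : symGroup K.T) _ _ h1, hM.ve (h : symGroup K.T) _ _ h2⟩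

theorem w4_adj_iff (hM : Equiv M.toInc (symGroup K.T)) (h : transGrp K) (u v : K.V) :
    M.vadj.Adj (h • u) (h • v) ↔ M.vadj.Adj u v := by
  constructor
  · intro huv
    have := w4_adj hM h⁻¹ huv
    rwa [inv_smul_smul, inv_smul_smul] at this
  · exact w4_adj hM h

theorem w4_reach (hM : Equiv M.toInc (symGroup K.T)) (h : transGrp K) {Z Z' : Set K.V}
    {a b : K.V} (hab : ReachIn M.vadj Z a b) (hZ : ∀ v ∈ Z, h • v ∈ Z') :
    ReachIn M.vadj Z' (h • a) (h • b) := by
  refine hab.map (f := fun v => h • v) fun x hx y hy hxy => ?_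
  exact ReachIn.single (w4_adj hM h hxy) (hZ x hx) (hZ y hy)

theorem w4_comm (h k : transGrp K) (v : K.V) : h • k • v = k • h • v := by
  apply Subtype.ext
  rw [smul_V_trans, smul_V_trans, smul_V_trans, smul_V_trans]
  ring

theorem w4_dir_add (w a b : ℂ) : dir w (a + b) = dir w a + dir w b := by
  simp only [dir, Complex.add_re, Complex.add_im]
  ring

theorem w4_nbr_fin (v : K.V) : {u | M.vadj.Adj v u}.Finite := by
  have h1 : (⋃ e ∈ {e | M.ve v e}, {u | M.ve u e}).Finite := by
    refine (M.vert_fin v).biUnion fun e _ => ?_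
    obtain ⟨a, b, -, hab⟩ := M.edge_verts e
    have : {u | M.ve u e} = {a, b} := by
      ext u
      simp [hab]
    rw [this]
    exact (finite_singleton b).insert a
  refine h1.subset ?_
  rintro u ⟨-, e, h2, h3⟩
  exact mem_biUnion h2 h3

theorem w4_wt_pos (u v : K.V) : 0 < wt M.toInc u v ↔ M.vadj.Adj u v := by
  classical
  unfold wt
  by_cases h : M.vadj.Adj u v
  · simp [h]
  · simp [h]

theorem w4_wt_one {u v : K.V} (h : M.vadj.Adj u v) : wt M.toInc u v = 1 := by
  classical
  unfold wt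
  simp [h]

theorem w4_net : Net (wt M.toInc) where
  fin v := by
    refine (w4_nbr_fin (M := M) v).subset fun u hu => ?_
    by_contra hcon
    apply hu
    classical
    unfold wt
    simp only [mem_ofPred_eq] at hcon
    simp [hcon]
  nonneg v u := by
    classical
    unfold wt
    split_ifs
    · exact zero_le_one
    · exact le_refl _

theorem w4_wt_smul (hM : Equiv M.toInc (symGroup K.T)) (h : transGrp K) (u v : K.V) :
    wt M.toInc (h • u) (h • v) = wt M.toInc u v := by
  classical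
  unfold wt
  simp only [w4_adj_iff hM h u v]

theorem w4_deg (hM : Equiv M.toInc (symGroup K.T)) (h : transGrp K) (v : K.V) :
    ∑ᶠ t, wt M.toInc (h • v) t = ∑ᶠ t, wt M.toInc v t := by
  symm
  refine finsum_eq_of_bijective (fun t => h • t) (MulAction.bijective h) fun t => ?_
  exact (w4_wt_smul hM h v t).symm

end w4

theorem wallUp (hU : Stmt_UpSet) (hA : Stmt_Harm) : Stmt_WallUp := by
  intro K M hmap hfin φ hφ w hw c
  have hM := hfin.symM
  obtain ⟨R, hR, hRV⟩ := hfin.orbV
  obtain ⟨h0, hκ⟩ := hfin.pos w hw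
  have hper : ∀ (h : transGrp K) v, dir w (φ (h • v)) = dir w (φ v) + dir w (tvec h) := by
    intro h v
    rw [hφ.per, w4_dir_add]
  have hharm : ∀ v, Harm (wt M.toInc) (fun u => dir w (φ u)) v := fun v =>
    (hA K.V (wt M.toInc) w4_net).2.2.1 φ v w (hφ.harm v)
  -- uniform drop of the path from `v` to `h0 • v`
  obtain ⟨D, hD⟩ : ∃ D : ℝ, ∀ r ∈ R,
      ReachIn M.vadj {v | dir w (φ r) - D ≤ dir w (φ v)} r (h0 • r) := by
    refine w4_bound hR (fun r D => ReachIn M.vadj {v | dir w (φ r) - D ≤ dir w (φ v)} r (h0 • r))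
      ?_ ?_
    · intro r _
      obtain ⟨μ, hμ⟩ := w4_min (M.vconn r (mem_univ _) (h0 • r) (mem_univ _))
        (fun v => dir w (φ v))
      refine ⟨dir w (φ r) - μ, hμ.mono fun v hv => ?_⟩
      have hv' : μ ≤ dir w (φ v) := hv
      show dir w (φ r) - (dir w (φ r) - μ) ≤ dir w (φ v)
      linarith
    · intro r d d' hd h
      refine h.mono fun v hv => ?_
      have hv' : dir w (φ r) - d ≤ dir w (φ v) := hv
      show dir w (φ r) - d' ≤ dir w (φ v)
      linarith
  have hDv : ∀ v, ReachIn M.vadj {u | dir w (φ v) - D ≤ dir w (φ u)} v (h0 • v) := by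
    intro v
    obtain ⟨h, r, hr, rfl⟩ := hRV v
    rw [w4_comm h0 h r]
    refine w4_reach hM h (hD r hr) fun u hu => ?_
    have hu' : dir w (φ r) - D ≤ dir w (φ u) := hu
    show dir w (φ (h • r)) - D ≤ dir w (φ (h • u))
    rw [hper, hper]
    linarith
  have hpow : ∀ (k : ℕ) (v : K.V), dir w (φ (h0 ^ k • v)) =
      dir w (φ v) + k * dir w (tvec h0) := by
    intro k v
    induction k with
    | zero => simp
    | succ k ih =>
      rw [pow_succ', mul_smul, hper, ih]
      push_cast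
      ring
  have hclimb : ∀ (k : ℕ) (v : K.V), c + D < dir w (φ v) →
      ReachIn M.vadj {u | c < dir w (φ u)} v (h0 ^ k • v) := by
    intro k v hv
    induction k with
    | zero => simpa using ReachIn.refl v
    | succ k ih =>
      rw [pow_succ', mul_smul]
      refine ih.trans ((hDv _).mono fun u hu => ?_)
      have hu' : dir w (φ (h0 ^ k • v)) - D ≤ dir w (φ u) := hu
      show c < dir w (φ u)
      rw [hpow] at hu'
      have : 0 ≤ (k : ℝ) * dir w (tvec h0) := mul_nonneg (Nat.cast_nonneg _) hκ.le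
      linarith
  -- high vertices are connected
  have hhigh : ∀ a b : K.V, c + D < dir w (φ a) → c + D < dir w (φ b) →
      ReachIn M.vadj {u | c < dir w (φ u)} a b := by
    intro a b ha hb
    obtain ⟨μ, hμ⟩ := w4_min (M.vconn a (mem_univ _) b (mem_univ _)) (fun v => dir w (φ v))
    obtain ⟨k, hk⟩ := exists_nat_gt ((c - μ) / dir w (tvec h0))
    have hk' : c - μ < k * dir w (tvec h0) := (div_lt_iff₀ hκ).1 hk
    refine (hclimb k a ha).trans (ReachIn.trans ?_ (hclimb k b hb).symm)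
    refine w4_reach hM (h0 ^ k) hμ fun u hu => ?_
    have hu' : μ ≤ dir w (φ u) := hu
    show c < dir w (φ (h0 ^ k • u))
    rw [hpow]
    linarith
  -- everything reaches high vertices
  have hreach : ∀ v : K.V, c < dir w (φ v) → ∃ b, c + D < dir w (φ b) ∧
      ReachIn M.vadj {u | c < dir w (φ u)} v b := by
    obtain ⟨S, hS⟩ : ∃ S : ℝ, ∀ r ∈ R, ∑ᶠ t, wt M.toInc r t ≤ S :=
      w4_bound hR (fun r S => ∑ᶠ t, wt M.toInc r t ≤ S) (fun r _ => ⟨_, le_refl _⟩)
        (fun r d d' hd h => h.trans hd)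
    obtain ⟨L, hL⟩ : ∃ L : ℝ, ∀ r ∈ R, ∃ (n : ℕ) (q : ℕ → K.V), (n : ℝ) ≤ L ∧ q 0 = r ∧
        q n = h0 • r ∧ ∀ i < n, M.vadj.Adj (q i) (q (i + 1)) := by
      refine w4_bound hR (fun r L => ∃ (n : ℕ) (q : ℕ → K.V), (n : ℝ) ≤ L ∧ q 0 = r ∧
        q n = h0 • r ∧ ∀ i < n, M.vadj.Adj (q i) (q (i + 1))) ?_ ?_
      · intro r _
        obtain ⟨n, q, h1, h2, h3, -⟩ :=
          (M.vconn r (mem_univ _) (h0 • r) (mem_univ _)).exists_path (mem_univ _)
        exact ⟨n, n, q, le_refl _, h1, h2, h3⟩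
      · rintro r d d' hd ⟨n, q, h1, h2⟩
        exact ⟨n, q, h1.trans hd, h2⟩
    intro v hv
    have hS1 : 0 < max S 1 := lt_of_lt_of_le one_pos (le_max_right _ _)
    have key := hU K.V (wt M.toInc) w4_net univ (1 / max S 1) (by positivity) ?_
      (fun u => dir w (φ u)) (fun v _ => hharm v) ⌈L⌉₊ (dir w (tvec h0)) hκ ?_ c v hv
    · rcases key with ⟨b, hb, -⟩ | key
      · exact absurd (mem_univ b) hb
      · obtain ⟨b, hb1, hb2⟩ := key (c + D)
        refine ⟨b, hb1, ?_⟩
        refine Relation.ReflTransGen.mono (p := fun x y => M.vadj.Adj x y ∧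
          x ∈ {u | c < dir w (φ u)} ∧ y ∈ {u | c < dir w (φ u)}) ?_ v b hb2
        rintro x y ⟨h1, h2, h3⟩
        exact ⟨(w4_wt_pos x y).1 h1, h2, h3⟩
    · intro v _ u hvu
      rw [w4_wt_one ((w4_wt_pos v u).1 hvu)]
      obtain ⟨h, r, hr, rfl⟩ := hRV v
      rw [w4_deg hM, one_div, inv_mul_le_iff₀ hS1, mul_one]
      exact (hS r hr).trans (le_max_left _ _)
    · intro v _
      obtain ⟨h, r, hr, rfl⟩ := hRV v
      obtain ⟨n, q, h1, h2, h3, h4⟩ := hL r hr
      refine ⟨n, fun i => h • q i, ?_, ?_, ?_, Or.inr ?_⟩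
      · have := h1.trans (Nat.le_ceil L)
        exact_mod_cast this
      · show h • q 0 = h • r
        rw [h2]
      · intro i hi
        exact (w4_wt_pos _ _).2 (w4_adj hM h (h4 i hi))
      · show dir w (φ (h • r)) + dir w (tvec h0) ≤ dir w (φ (h • q n))
        rw [h3, hper, hper, hper]
        linarith
  intro a ha b hb
  obtain ⟨a', ha1, ha2⟩ := hreach a ha
  obtain ⟨b', hb1, hb2⟩ := hreach b hb
  exact ha2.trans ((hhigh a' b' ha1 hb1).trans hb2.symm)

end Pool.Agent.CT
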