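import Pool.Agent.CT.W.WMain
import Pool.Agent.CT.W.WFin
import Pool.Agent.CT.W.WLoc
import Pool.Agent.CT.W.WDual
import Pool.Agent.CT.W.WBlk
import Pool.Agent.CT.W.WCross
import Pool.Agent.CT.W.WHarm
import Pool.Agent.CT.W.WOpp
import Pool.Agent.CT.W.WPhi
import Pool.Agent.CT.W.WRef
import Pool.Agent.CT.W.WUp
import Pool.Agent.CT.ThreeConn
import Pool.Agent.CT.Cyc
import Pool.Agent.CT.Curve
import Pool.Agent.CT.Bond
import Pool.Agent.CT.Harm
import Pool.Agent.CT.Dirichlet
import Pool.Agent.CT.FaceThree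
import Pool.Agent.CT.FaceAlt
import Pool.Agent.CT.StrictOf
import Pool.Agent.CT.PolyGeom
import Pool.Agent.CT.Block
import Pool.Agent.CT.Count
import Pool.Agent.CT.Inter

set_option autoImplicit false

/-! # Part W: wallpaper groups, unconditional -/

namespace Pool.Agent.CT

theorem w_curve : Stmt_Curve := cA_curve cA_noDouble

theorem w_faceCycle : Stmt_FaceCycle := cA_faceCycle w_curve

theorem w_threeConn : Stmt_ThreeConn := cB_threeConn cA_noDouble w_faceCycle

theorem w_bond : Stmt_Bond := cD_bond w_curve cA_frVertex w_faceCycle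

theorem w_block : Stmt_Block := cB1 cP12 cP3 cP4 cG1

theorem w_oppOf : Stmt_OppOf := oppOf w_faceCycle cG3

theorem w_wallPhi : Stmt_WallPhi := wallPhi (perHarm cA2 cA1)

theorem w_wallUp : Stmt_WallUp := wallUp cA3 cA1

theorem w_wallBlk : Stmt_WallBlk := wallBlk w_wallUp cA1 w_faceCycle w_threeConn w_block

theorem w_refPoint : Stmt_RefPoint :=
  refPoint w_oppOf (dualBond w_bond) (crossT w_oppOf w_faceCycle)

/-- Tilings with a wallpaper group have an equivariant convex drawing. -/
theorem drawWall_final : Stmt_DrawWall :=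
  drawWall wallFin w_wallPhi w_wallUp w_wallBlk wallLoc w_oppOf w_refPoint cG5 cG6

end Pool.Agent.CT
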