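import Pool.Agent.CT.WDefs

set_option autoImplicit false

/-! # Block W11: wallpaper groups, assembly -/

namespace Pool.Agent.CT

open Set Metric

theorem drawWall (h2 : Stmt_WallFin) (h3 : Stmt_WallPhi) (h4 : Stmt_WallUp) (h5 : Stmt_WallBlk)
    (h6 : Stmt_WallLoc) (h7 : Stmt_OppOf) (h10 : Stmt_RefPoint) (hC : Stmt_Count)
    (hI : Stmt_PreInter) : Stmt_DrawWall := by
  intro K M hM hT hW
  have hfin := h2 K M.toPolyMap hM hT hW
  obtain ⟨φ, hφ⟩ := h3 K M hM hfin
  have hblk := h5 K M hM hfin φ hφ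
  obtain ⟨hface, hopp⟩ := h7 _ _ _ M.toPolyMap φ hblk
  have hcountable : Countable K.V := by
    have h : (univ : Set K.V) = ⋃ n : ℕ, {v : K.V | ‖v.1‖ ≤ n} := by
      ext v
      simp only [mem_univ, mem_iUnion, mem_ofPred_eq, true_iff]
      exact exists_nat_ge _
    have h' : (univ : Set K.V).Countable := by
      rw [h]
      exact countable_iUnion fun n => (hfin.locV n).countable
    exact countable_univ_iff.1 h'
  have hinf : Infinite K.V := M.vinf
  have hne : Nonempty K.V := inferInstance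
  have hup := h4 K M hM hfin φ hφ
  have hunb : ∀ w : ℂ, w ≠ 0 → ∀ c : ℝ, ∃ v, c < dir w (φ v) := by
    intro w hw c
    obtain ⟨h, hh⟩ := hfin.pos w hw
    obtain ⟨v0⟩ := hne
    have hdir : ∀ z z' : ℂ, dir w (z + z') = dir w z + dir w z' := by
      intro z z'
      simp only [dir, Complex.add_re, Complex.add_im]
      ring
    have key : ∀ n : ℕ, dir w (φ ((h ^ n) • v0)) = dir w (φ v0) + n * dir w (tvec h) := by
      intro n
      induction n with
      | zero => simp
      | succ n ih =>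
        rw [pow_succ', mul_smul, hφ.per, hdir, ih]
        push_cast
        ring
    obtain ⟨n, hn⟩ := exists_nat_gt ((c - dir w (φ v0)) / dir w (tvec h))
    refine ⟨(h ^ n) • v0, ?_⟩
    rw [key n]
    rw [div_lt_iff₀ hh] at hn
    linarith
  obtain ⟨w₀, f₀, hw₀, hw₀'⟩ := h10 _ _ _ M φ hblk hup hunb
  have hcount := hC K.V K.E K.F M.toInc φ univ isOpen_univ convex_univ hface M.edge_verts
    (fun w _ => ⟨1, one_pos, h6 K M hM hT hfin φ hφ w 1⟩)
    (fun e _ => by
      obtain ⟨f, g, hfg, hh⟩ := M.edge_faces e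
      exact ⟨f, g, hfg, hh, hopp e f g hfg ((hh f).2 (Or.inl rfl)) ((hh g).2 (Or.inr rfl))⟩)
    w₀ f₀ (mem_univ _) hw₀ hw₀'
  have hpre : PreDrawing M.toInc φ :=
    { face := hface
      opp := hopp
      cover := fun z => hcount.1 z (mem_univ _)
      locfin := fun r => h6 K M hM hT hfin φ hφ 0 r
      disj := fun f g hfg => by simpa using hcount.2 f g hfg }
  exact ⟨φ, hI _ _ _ M.toPolyMap φ hpre, hφ.equi⟩

end Pool.Agent.CT
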